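import Pool.Agent.H24.Near.Defs

set_option autoImplicit false

/-!
# Normalised charts, and the local theorem
-/

open Metric
open Pool.Agent.H24.Near (Sol)

noncomputable section

namespace Pool.Agent.H94.Geo

/-- A normalised chart at the point `x` for the eigenfunctions of a surface: `P lam φ` stands for
`φ is an eigenfunction for lam`. Squares are closed balls of the maximum norm of `ℝ × ℝ`. -/
structure GoodChart {M : Type*} [MetricSpace M] (P : ℝ → (M → ℝ) → Prop) (x : M) where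
  /-- the parametrisation -/
  Φ : ℝ × ℝ → M
  /-- the distortion -/
  κ : ℝ
  /-- the bound for the conformal factor -/
  W : ℝ
  one_le_κ : 1 ≤ κ
  one_le_W : 1 ≤ W
  center : Φ 0 = x
  lip : ∀ a ∈ closedBall (0 : ℝ × ℝ) 9, ∀ b ∈ closedBall (0 : ℝ × ℝ) 9,
    dist (Φ a) (Φ b) ≤ κ * dist a b
  surj : ∀ a ∈ closedBall (0 : ℝ × ℝ) 1, ∀ s, 0 < s → s ≤ 1 →
    ball (Φ a) (s / κ) ⊆ Φ '' closedBall a s
  sol : ∀ N : ℝ, 1 ≤ N → ∀ lam : ℝ, 0 < lam → lam ≤ N ^ 2 → ∀ φ : M → ℝ, P lam φ →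
    ∃ q u : ℝ × ℝ → ℝ, Sol q u ((W * N) ^ 2) (closedBall 0 9) ∧
      ∀ a ∈ closedBall (0 : ℝ × ℝ) 9, u a = φ (Φ a)

/-- The local theorem: bounded average growth at the scale `1 / N`. -/
def LocB : Prop :=
  ∃ R₀ : ℝ, 4 ≤ R₀ ∧ ∀ (W C₁ K k : ℝ), 1 ≤ W → 1 ≤ C₁ → 1 ≤ K → 0 < k → k ≤ 1 →
    ∃ C N₀ : ℝ, ∀ (N : ℝ) (q u : ℝ × ℝ → ℝ), N₀ ≤ N → 1 ≤ N →
      Sol q u ((W * N) ^ 2) (closedBall 0 R₀) →
      (∀ p ∈ closedBall (0 : ℝ × ℝ) R₀, |u p| ≤ 1) →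
      (∀ y ∈ closedBall (0 : ℝ × ℝ) (R₀ / 2),
        Real.exp (-(C₁ * N)) ≤ Pool.Agent.H24.Near.M u y 1) →
      ∀ F : Finset (ℤ × ℤ),
        (∀ n ∈ F, ((n.1 / N, n.2 / N) : ℝ × ℝ) ∈ closedBall (0 : ℝ × ℝ) 2) →
        ∑ n ∈ F, (Real.log (Pool.Agent.H24.Near.M u (n.1 / N, n.2 / N) (K / N)) -
          Real.log (Pool.Agent.H24.Near.M u (n.1 / N, n.2 / N) (k / N))) ≤ C * N ^ 2

end Pool.Agent.H94.Geo
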