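import Mathlib

/-!
# Closed Riemannian surfaces, eigenfunctions and admissible coverings: definitions

A closed smooth Riemannian surface is a compact metric space `M` with the structure of a smooth
manifold modelled on the Euclidean plane, with a smooth Riemannian metric (an inner product on each
tangent space, depending smoothly on the point) whose Riemannian distance (the infimum of the
lengths of the `C¹` paths between two points) is the distance of `M`: in Mathlib's terms

* `[MetricSpace M] [CompactSpace M] [ChartedSpace Plane M] [IsManifold model ∞ M]`,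
* `[RiemannianBundle (fun x : M => TangentSpace model x)]`,
  `[IsContMDiffRiemannianBundle model ∞ Plane (fun x : M => TangentSpace model x)]`,
* `[IsRiemannianManifold model M]`.

Since the distance is finite, `M` is connected.
-/

set_option autoImplicit false

open Manifold Bundle
open scoped ContDiff Topology

noncomputable section

universe u

namespace Pool.Agent.H94.Surface

/-- The Euclidean plane. -/
def Plane : Type := EuclideanSpace ℝ (Fin 2)

/-- The Euclidean norm (Mathlib's instance for `EuclideanSpace ℝ (Fin 2)`). -/
instance instNormedAddCommGroupPlane : NormedAddCommGroup Plane :=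
  PiLp.normedAddCommGroup 2 fun _ : Fin 2 => ℝ

/-- The vector space structure (Mathlib's instance for `EuclideanSpace ℝ (Fin 2)`). -/
instance instNormedSpacePlane : NormedSpace ℝ Plane :=
  PiLp.normedSpace 2 ℝ fun _ : Fin 2 => ℝ

/-- The coordinate vectors of the plane. -/
def ev (i : Fin 2) : Plane := EuclideanSpace.single i 1

/-- Partial derivatives of a function on the plane. -/
def pder (i : Fin 2) (f : Plane → ℝ) (p : Plane) : ℝ := fderiv ℝ f p (ev i)

/-- The model for surfaces without boundary: the identity of the plane. -/
abbrev model : ModelWithCorners ℝ Plane Plane := modelWithCornersSelf ℝ Plane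

section

variable {M : Type u} [MetricSpace M] [ChartedSpace Plane M]

/-- The differential of the inverse of the chart `e` at the point `p` of its target. -/
def dsymm (e : OpenPartialHomeomorph M Plane) (p : Plane) :
    Plane →L[ℝ] TangentSpace model (e.symm p) :=
  mfderiv model model e.symm p

/-- The coordinate vector fields of the chart `e`, at the point `p` of its target. -/
def coordVec (e : OpenPartialHomeomorph M Plane) (p : Plane) (i : Fin 2) :
    TangentSpace model (e.symm p) :=
  dsymm e p (ev i)

variable [RiemannianBundle (fun x : M => TangentSpace model x)]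

/-- The coefficients `g_ij` of the Riemannian metric in the chart `e`, at the point `p` of the
target of `e`: the inner products of the coordinate vector fields of the chart. -/
def coef (e : OpenPartialHomeomorph M Plane) (p : Plane) : Matrix (Fin 2) (Fin 2) ℝ :=
  Matrix.of fun i j => inner ℝ (coordVec e p i) (coordVec e p j)

/-- The Laplace-Beltrami operator in the chart `e`:
`Δ_g φ = (det g)^(-1/2) ∑ ∂_i ((det g)^(1/2) g^{ij} ∂_j φ)`. -/
def lap (e : OpenPartialHomeomorph M Plane) (φ : M → ℝ) (p : Plane) : ℝ :=
  (√(coef e p).det)⁻¹ * ∑ i, ∑ j,
    pder i (fun q => √(coef e q).det * (coef e q)⁻¹ i j * pder j (fun y => φ (e.symm y)) q) p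

/-- The Laplace-Beltrami operator `Δ_g φ` at the point `x`, computed in the preferred chart at `x`.
(It does not depend on the chart: see `laplacian_eq_lap` in `Pool.Agent.H94.Geo.Bridge`.) -/
def laplacian (φ : M → ℝ) (x : M) : ℝ := lap (chartAt Plane x) φ (chartAt Plane x x)

/-- `φ` is a (real) eigenfunction: it is smooth, not identically zero and satisfies
`Δ_g φ + λ φ = 0`. -/
structure IsEigenfunction (lam : ℝ) (φ : M → ℝ) : Prop where
  /-- smoothness -/
  smooth : ContMDiff model 𝓘(ℝ, ℝ) ∞ φ
  /-- `φ` does not vanish identically -/
  ne_zero : ∃ x, φ x ≠ 0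
  /-- the equation `Δ_g φ + λ φ = 0` -/
  equation : ∀ x, laplacian φ x + lam * φ x = 0

end

section

variable {M : Type u} [MetricSpace M]

/-- The doubling index of `φ` on the geodesic disc `B = B(x, r)`:
`N(B) = log₂ (sup_{2B} |φ| / sup_B |φ|)`. -/
def doublingIndex (φ : M → ℝ) (x : M) (r : ℝ) : ℝ :=
  Real.logb 2 ((⨆ y : Metric.ball x (2 * r), |φ y|) / ⨆ y : Metric.ball x r, |φ y|)

/-- The geodesic discs `B(c i, C / √λ)` form an admissible covering for `φ` with the constants
`C`, `C₁`, `C₂`. -/
structure IsAdmissible (φ : M → ℝ) (lam C C₁ C₂ : ℝ) {ι : Type} [Fintype ι] (c : ι → M) :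
    Prop where
  /-- the discs cover `M` -/
  cover : ∀ y : M, ∃ i, y ∈ Metric.ball (c i) (C / √lam)
  /-- lower bound for the number of discs -/
  le_card : C₂⁻¹ * lam ≤ Fintype.card ι
  /-- upper bound for the number of discs -/
  card_le : (Fintype.card ι : ℝ) ≤ C₂ * lam
  /-- every point lies in at most `C₁` of the discs -/
  overlap : ∀ y : M, ({i | y ∈ Metric.ball (c i) (C / √lam)}.ncard : ℝ) ≤ C₁
  /-- `φ` vanishes at the centres -/
  zero : ∀ i, φ (c i) = 0

end

end Pool.Agent.H94.Surface
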