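import Pool.Agent.H94.Geo.ChartSum

set_option autoImplicit false

/-!
# The bounded average from the local theorem
-/

open Metric Set
open Pool.Agent.H24.Near (Sol Smooth M M_le M_mono le_M exists_M M_nonneg)

noncomputable section

namespace Pool.Agent.H94.Geo

variable {X : Type*} [MetricSpace X] {P : ℝ → (X → ℝ) → Prop}

lemma exists_top [CompactSpace X] {φ : X → ℝ} (hφ : Continuous φ) (hne : ∃ x, φ x ≠ 0) :
    ∃ S : ℝ, 0 < S ∧ (∀ x, |φ x| ≤ S) ∧ ∃ x, |φ x| = S := by
  obtain ⟨x₀, hx₀⟩ := hne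
  obtain ⟨x, -, hx⟩ := isCompact_univ.exists_isMaxOn ⟨x₀, mem_univ x₀⟩ hφ.abs.continuousOn
  have h1 : ∀ y, |φ y| ≤ |φ x| := fun y => hx (mem_univ y)
  exact ⟨|φ x|, (abs_pos.2 hx₀).trans_le (h1 x₀), h1, x, rfl⟩

/-- The bounded average of the doubling index from normalised charts and the local theorem. -/
theorem abstract_average [CompactSpace X] [PreconnectedSpace X]
    (hP : ∀ lam φ, P lam φ → Continuous φ ∧ ∃ x, φ x ≠ 0) (hG : ∀ x, Nonempty (GoodChart P x))
    (hB : LocB) {C C₁ C₂ : ℝ} (hC : 0 < C) (hC₂ : 0 < C₂) :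
    ∃ A : ℝ, ∀ lam : ℝ, 0 < lam → ∀ φ : X → ℝ, P lam φ →
      ∀ (ι : Type) [Fintype ι] (c : ι → X), IsAdmissible φ lam C C₁ C₂ c →
        (∑ i, doublingIndex φ (c i) (C / √lam)) / Fintype.card ι ≤ A := by
  classical
  have G : ∀ x, GoodChart P x := fun x => (hG x).some
  obtain ⟨R₀, hR₀, hLB⟩ := hB
  have hLB' : LocBR R₀ := hLB
  choose A N₁ hA hN₁ hsum using fun x => chart_sum G hR₀ hLB' x hC
  obtain ⟨t, ht⟩ := CompactSpace.elim_nhds_subcover (fun x => ball x (R₀⁻¹ / (G x).κ))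
    (fun x => ball_mem_nhds x (by
      have := (G x).one_le_κ
      positivity))
  set Nm : ℝ := 1 + ∑ x ∈ t, N₁ x with hNm
  have hNm1 : 1 ≤ Nm := by
    have : 0 ≤ ∑ x ∈ t, N₁ x := Finset.sum_nonneg fun x _ => zero_le_one.trans (hN₁ x)
    linarith
  have hNmx : ∀ x ∈ t, N₁ x ≤ Nm := by
    intro x hx
    have : N₁ x ≤ ∑ x ∈ t, N₁ x :=
      Finset.single_le_sum (f := N₁) (fun x _ => zero_le_one.trans (hN₁ x)) hx
    linarith
  obtain ⟨Cs, hCs, hgrow⟩ := growth G (ρ := C / Nm) (by positivity)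
  refine ⟨max (Cs * Nm / Real.log 2) ((∑ x ∈ t, A x) * C₁ * C₂), ?_⟩
  intro lam hlam φ hφ ι _ c hadm
  obtain ⟨hcont, hne⟩ := hP lam φ hφ
  obtain ⟨S, hS, hle, hmax⟩ := exists_top hcont hne
  have hlog2 : 0 < Real.log 2 := Real.log_pos (by norm_num)
  have hcard : 0 < (Fintype.card ι : ℝ) :=
    lt_of_lt_of_le (mul_pos (inv_pos.2 hC₂) hlam) hadm.le_card
  have hsq : 0 < √lam := Real.sqrt_pos.2 hlam
  have hsq2 : √lam ^ 2 = lam := Real.sq_sqrt hlam.le
  rw [div_le_iff₀ hcard]
  rcases le_or_gt Nm (√lam) with hbig | hsmall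
  · -- the main case
    have hex : ∀ i : ι, ∃ x ∈ t, c i ∈ ball x (R₀⁻¹ / (G x).κ) := by
      intro i
      have h3 : c i ∈ ⋃ x ∈ t, ball x (R₀⁻¹ / (G x).κ) := by
        rw [ht]
        trivial
      rw [mem_iUnion₂] at h3
      obtain ⟨x, hx, hx'⟩ := h3
      exact ⟨x, hx, hx'⟩
    choose xx hxx hxx' using hex
    have hC₁ : 0 ≤ C₁ := by
      obtain ⟨x, hx⟩ := hmax
      exact le_trans (Nat.cast_nonneg _) (hadm.overlap x)
    have h1 : ∑ i, doublingIndex φ (c i) (C / √lam) ≤ ∑ x ∈ t, A x * C₁ * lam := by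
      rw [← Finset.sum_fiberwise_of_maps_to (g := xx) (t := t) (fun i _ => hxx i)]
      apply Finset.sum_le_sum
      intro x hx
      have h2 := hsum x (√lam) φ ((hNmx x hx).trans hbig) (by rw [hsq2]; exact hφ) S hS hle hmax
        ι c C₁ hadm.overlap (Finset.univ.filter fun i => xx i = x) (by
          intro i hi
          have := hxx' i
          rwa [(Finset.mem_filter.1 hi).2] at this)
      rw [hsq2] at h2
      exact h2
    refine h1.trans ?_
    have h3 : lam ≤ C₂ * Fintype.card ι := by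
      have := hadm.le_card
      rwa [inv_mul_le_iff₀ hC₂] at this
    have h4 : 0 ≤ ∑ x ∈ t, A x := Finset.sum_nonneg fun x _ => hA x
    calc ∑ x ∈ t, A x * C₁ * lam = (∑ x ∈ t, A x) * C₁ * lam := by
          rw [Finset.sum_mul, Finset.sum_mul]
      _ ≤ (∑ x ∈ t, A x) * C₁ * (C₂ * Fintype.card ι) :=
          mul_le_mul_of_nonneg_left h3 (mul_nonneg h4 hC₁)
      _ = (∑ x ∈ t, A x) * C₁ * C₂ * Fintype.card ι := by ring
      _ ≤ _ := mul_le_mul_of_nonneg_right (le_max_right _ _) hcard.le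
  · -- small eigenvalues
    have hle2 : lam ≤ Nm ^ 2 := by
      rw [← hsq2]
      exact pow_le_pow_left₀ hsq.le hsmall.le 2
    have hterm : ∀ i, doublingIndex φ (c i) (C / √lam) ≤ Cs * Nm / Real.log 2 := by
      intro i
      obtain ⟨z, hz, hz'⟩ := hgrow Nm lam φ S hNm1 hlam hle2 hφ hS hle hmax (c i)
      have hr : 0 < C / √lam := by positivity
      have hz2 : z ∈ ball (c i) (C / √lam) := by
        apply ball_subset_ball _ hz
        exact div_le_div_of_nonneg_left hC.le hsq hsmall.le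
      have h1 := hz'.trans (le_iSup_ball hle hz2)
      have h2 : (⨆ y : ball (c i) (2 * (C / √lam)), |φ y|) ≤ S :=
        iSup_ball_le hS.le fun y _ => hle y
      have h3 : 0 < Real.exp (-(Cs * Nm)) * S := by positivity
      have h4 : 0 < ⨆ y : ball (c i) (C / √lam), |φ y| := h3.trans_le h1
      have h5 : (⨆ y : ball (c i) (C / √lam), |φ y|) ≤
          ⨆ y : ball (c i) (2 * (C / √lam)), |φ y| := by
        apply iSup_ball_le
        · exact Real.iSup_nonneg fun _ => abs_nonneg _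
        · intro y hy
          exact le_iSup_ball hle (ball_subset_ball (by linarith) hy)
      unfold doublingIndex
      rw [Real.logb]
      apply div_le_div_of_nonneg_right _ hlog2.le
      rw [Real.log_div (h4.trans_le h5).ne' h4.ne']
      have h6 := Real.log_le_log (h4.trans_le h5) h2
      have h7 := Real.log_le_log h3 h1
      rw [Real.log_mul (Real.exp_pos _).ne' hS.ne', Real.log_exp] at h7
      linarith
    calc ∑ i, doublingIndex φ (c i) (C / √lam) ≤ ∑ _i : ι, Cs * Nm / Real.log 2 :=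
          Finset.sum_le_sum fun i _ => hterm i
      _ = Cs * Nm / Real.log 2 * Fintype.card ι := by
          rw [Finset.sum_const, nsmul_eq_mul, Finset.card_univ, mul_comm]
      _ ≤ _ := mul_le_mul_of_nonneg_right (le_max_left _ _) hcard.le

end Pool.Agent.H94.Geo
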