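import Pool.Agent.H94.Geo.Defs

set_option autoImplicit false

/-!
# Connectedness
-/

open Manifold Bundle
open scoped ContDiff Topology

noncomputable section

namespace Pool.Agent.H94.Geo

section

variable {M : Type*} [MetricSpace M] [ChartedSpace Plane M] [IsManifold (𝓡 2) ∞ M]
  [RiemannianBundle (fun x : M => TangentSpace (𝓡 2) x)] [IsRiemannianManifold (𝓡 2) M]

/-- A Riemannian manifold whose distance is finite is connected: the Riemannian distance of two
points is finite, hence there is a `C¹` path between them. -/
theorem preconnectedSpace : PreconnectedSpace M := by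
  refine ⟨isPreconnected_of_forall_pair fun x _ y _ => ?_⟩
  have h : riemannianEDist (𝓡 2) x y < ⊤ := by
    rw [← IsRiemannianManifold.out (I := 𝓡 2) x y]
    exact edist_lt_top x y
  obtain ⟨γ, h0, h1, hγ, -⟩ := exists_lt_of_riemannianEDist_lt h
  refine ⟨γ '' Set.Icc 0 1, Set.subset_univ _, ⟨0, by simp, h0⟩, ⟨1, by simp, h1⟩, ?_⟩
  exact isPreconnected_Icc.image γ hγ.continuousOn

end

end Pool.Agent.H94.Geo
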