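import Pool.Agent.H94.Geo.Coef
import Pool.Agent.H94.Geo.LapIso

set_option autoImplicit false

/-!
# The Laplace-Beltrami operator does not depend on the chart
-/

open Manifold Bundle
open scoped ContDiff Topology

noncomputable section

namespace Pool.Agent.H94.Geo

/-! ### Calculus in the plane -/

theorem invar_pder_congr {f g : Plane → ℝ} {p : Plane} (h : f =ᶠ[𝓝 p] g) (i : Fin 2) :
    pder i f p = pder i g p := by
  unfold pder
  rw [h.fderiv_eq]

theorem invar_pder_add {f g : Plane → ℝ} {p : Plane} (hf : DifferentiableAt ℝ f p)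
    (hg : DifferentiableAt ℝ g p) (i : Fin 2) :
    pder i (fun q => f q + g q) p = pder i f p + pder i g p := by
  unfold pder
  rw [fderiv_fun_add hf hg]
  rfl

theorem invar_pder_sub {f g : Plane → ℝ} {p : Plane} (hf : DifferentiableAt ℝ f p)
    (hg : DifferentiableAt ℝ g p) (i : Fin 2) :
    pder i (fun q => f q - g q) p = pder i f p - pder i g p := by
  unfold pder
  rw [fderiv_fun_sub hf hg]
  rfl

theorem invar_pder_neg (f : Plane → ℝ) (p : Plane) (i : Fin 2) :
    pder i (fun q => -f q) p = -pder i f p := by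
  unfold pder
  rw [fderiv_fun_neg]
  rfl

theorem invar_pder_mul {f g : Plane → ℝ} {p : Plane} (hf : DifferentiableAt ℝ f p)
    (hg : DifferentiableAt ℝ g p) (i : Fin 2) :
    pder i (fun q => f q * g q) p = pder i f p * g p + f p * pder i g p := by
  unfold pder
  rw [fderiv_fun_mul hf hg]
  simp only [add_apply, smul_apply, smul_eq_mul]
  ring

theorem invar_pder_const_mul {f : Plane → ℝ} {p : Plane} (hf : DifferentiableAt ℝ f p) (c : ℝ)
    (i : Fin 2) : pder i (fun q => c * f q) p = c * pder i f p := by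
  unfold pder
  rw [fderiv_const_mul hf]
  rfl

theorem invar_fderiv_apply {T : Plane → Plane} {p : Plane} (hT : DifferentiableAt ℝ T p)
    (i k : Fin 2) : (fderiv ℝ T p (ev i)) k = pder i (fun y => T y k) p := by
  unfold pder
  have h : HasFDerivAt (fun y => T y k)
      ((EuclideanSpace.proj k : Plane →L[ℝ] ℝ).comp (fderiv ℝ T p)) p :=
    (EuclideanSpace.proj k : Plane →L[ℝ] ℝ).hasFDerivAt.comp p hT.hasFDerivAt
  rw [h.fderiv]
  rfl

theorem invar_pder_chain {T : Plane → Plane} {p : Plane} (hT : DifferentiableAt ℝ T p)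
    {V : Plane → ℝ} (hV : DifferentiableAt ℝ V (T p)) (i : Fin 2) :
    pder i (fun q => V (T q)) p = pder i (fun y => T y 0) p * pder 0 V (T p) +
      pder i (fun y => T y 1) p * pder 1 V (T p) := by
  have h : fderiv ℝ (fun q => V (T q)) p = (fderiv ℝ V (T p)).comp (fderiv ℝ T p) :=
    fderiv_comp p hV hT
  rw [← invar_fderiv_apply hT i 0, ← invar_fderiv_apply hT i 1]
  unfold pder
  rw [h, ContinuousLinearMap.comp_apply]
  conv_lhs => rw [eq_smul_ev (fderiv ℝ T p (ev i))]
  rw [map_add, map_smul, map_smul, smul_eq_mul, smul_eq_mul]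

theorem invar_contDiffAt_pder {f : Plane → ℝ} {p : Plane} (hf : ContDiffAt ℝ ∞ f p) (i : Fin 2) :
    ContDiffAt ℝ ∞ (pder i f) p := by
  have h : ContDiffAt ℝ ∞ (fderiv ℝ f) p := hf.fderiv_right (m := ∞) le_rfl
  exact h.clm_apply contDiffAt_const

theorem invar_pder_comm {f : Plane → ℝ} {p : Plane} (hf : ContDiffAt ℝ ∞ f p) :
    pder 0 (pder 1 f) p = pder 1 (pder 0 f) p := by
  have hd : DifferentiableAt ℝ (fderiv ℝ f) p :=
    (hf.fderiv_right (m := ∞) le_rfl).differentiableAt (by simp)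
  have key : ∀ i j : Fin 2, pder i (pder j f) p = fderiv ℝ (fderiv ℝ f) p (ev i) (ev j) := by
    intro i j
    have h : HasFDerivAt (fun q => fderiv ℝ f q (ev j))
        ((fderiv ℝ (fderiv ℝ f) p).flip (ev j)) p := by
      have h1 := hd.hasFDerivAt.clm_apply (hasFDerivAt_const (ev j) p)
      simpa using h1
    show fderiv ℝ (fun q => fderiv ℝ f q (ev j)) p (ev i) = _
    rw [h.fderiv]
    rfl
  have hs : IsSymmSndFDerivAt ℝ f p := hf.isSymmSndFDerivAt (by
    rw [minSmoothness_of_isRCLikeNormedField]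
    exact WithTop.coe_le_coe.2 (le_top (a := (2 : ℕ∞))))
  rw [key, key]
  exact hs (ev 0) (ev 1)

/-- The Piola identity in the plane: for a smooth map `T` with nonzero Jacobian `J = det DT` near `p`
and a vector field `V` differentiable at `T p`, the field
`(∂₂T₂ (V₁ ∘ T) - ∂₂T₁ (V₂ ∘ T), -∂₁T₂ (V₁ ∘ T) + ∂₁T₁ (V₂ ∘ T))` has divergence
`J (div V) ∘ T`. -/
theorem piola {T : Plane → Plane} {p : Plane} (hT : ContDiffAt ℝ ∞ T p) {V₁ V₂ : Plane → ℝ}
    (h₁ : DifferentiableAt ℝ V₁ (T p)) (h₂ : DifferentiableAt ℝ V₂ (T p)) :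
    pder 0 (fun q => pder 1 (fun y => T y 1) q * V₁ (T q) -
        pder 1 (fun y => T y 0) q * V₂ (T q)) p +
      pder 1 (fun q => -pder 0 (fun y => T y 1) q * V₁ (T q) +
        pder 0 (fun y => T y 0) q * V₂ (T q)) p =
    (pder 0 (fun y => T y 0) p * pder 1 (fun y => T y 1) p -
        pder 0 (fun y => T y 1) p * pder 1 (fun y => T y 0) p) *
      (pder 0 V₁ (T p) + pder 1 V₂ (T p)) := by
  have hTd : DifferentiableAt ℝ T p := hT.differentiableAt (by simp)
  have hTk : ∀ k : Fin 2, ContDiffAt ℝ ∞ (fun y => T y k) p := fun k =>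
    (EuclideanSpace.proj k : Plane →L[ℝ] ℝ).contDiff.contDiffAt.comp p hT
  have hd : ∀ i k : Fin 2, DifferentiableAt ℝ (pder i (fun y => T y k)) p := fun i k =>
    (invar_contDiffAt_pder (hTk k) i).differentiableAt (by simp)
  have hV₁ : DifferentiableAt ℝ (fun q => V₁ (T q)) p := DifferentiableAt.comp p h₁ hTd
  have hV₂ : DifferentiableAt ℝ (fun q => V₂ (T q)) p := DifferentiableAt.comp p h₂ hTd
  rw [invar_pder_sub ((hd 1 1).fun_mul hV₁) ((hd 1 0).fun_mul hV₂),
    invar_pder_add ((hd 0 1).fun_neg.fun_mul hV₁) ((hd 0 0).fun_mul hV₂),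
    invar_pder_mul (hd 1 1) hV₁, invar_pder_mul (hd 1 0) hV₂,
    invar_pder_mul (hd 0 1).fun_neg hV₁,
    invar_pder_mul (hd 0 0) hV₂, invar_pder_neg,
    invar_pder_chain hTd h₁ 0, invar_pder_chain hTd h₁ 1, invar_pder_chain hTd h₂ 0,
    invar_pder_chain hTd h₂ 1]
  have c0 := invar_pder_comm (hTk 0)
  have c1 := invar_pder_comm (hTk 1)
  have c0' : pder 0 (fun q => pder 1 (fun y => T y 0) q) p =
    pder 1 (fun q => pder 0 (fun y => T y 0) q) p := c0
  have c1' : pder 0 (fun q => pder 1 (fun y => T y 1) q) p =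
    pder 1 (fun q => pder 0 (fun y => T y 1) q) p := c1
  linear_combination V₁ (T p) * c1' - V₂ (T p) * c0'

section

variable {M : Type*} [MetricSpace M] [ChartedSpace Plane M] [IsManifold (𝓡 2) ∞ M]
  [RiemannianBundle (fun x : M => TangentSpace (𝓡 2) x)]

/-- The inner product of the tangent space at `x`, for vectors of the plane. -/
def invarInner (x : M) (v w : Plane) : ℝ := @inner ℝ (TangentSpace (𝓡 2) x) _ v w

omit [IsManifold (𝓡 2) ∞ M] in
theorem invarInner_coef (e : OpenPartialHomeomorph M Plane) (p : Plane) (i j : Fin 2) :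
    coef e p i j = invarInner (e.symm p) (mfderiv (𝓡 2) (𝓡 2) e.symm p (ev i))
      (mfderiv (𝓡 2) (𝓡 2) e.symm p (ev j)) := rfl

theorem invarInner_symm (e : OpenPartialHomeomorph M Plane) (p : Plane) (v w : Plane) :
    invarInner (e.symm p) (mfderiv (𝓡 2) (𝓡 2) e.symm p v) (mfderiv (𝓡 2) (𝓡 2) e.symm p w) =
      coef e p 0 0 * (v 0 * w 0) + coef e p 0 1 * (v 0 * w 1 + v 1 * w 0) +
        coef e p 1 1 * (v 1 * w 1) := inner_mfderiv_symm e p v w

/-- The flux `√det g g⁻¹ ∇u`. -/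
def invarFlux (e : OpenPartialHomeomorph M Plane) (φ : M → ℝ) (i : Fin 2) (q : Plane) : ℝ :=
  ∑ j, √(coef e q).det * (coef e q)⁻¹ i j * pder j (fun y => φ (e.symm y)) q

theorem invar_det (e : OpenPartialHomeomorph M Plane) (q : Plane) :
    (coef e q).det = coef e q 0 0 * coef e q 1 1 - coef e q 0 1 ^ 2 := by
  rw [Matrix.det_fin_two, coef_symm e q 1 0]
  ring

theorem invar_det_pos {e : OpenPartialHomeomorph M Plane}
    (he : e ∈ IsManifold.maximalAtlas (𝓡 2) ∞ M) {q : Plane} (hq : q ∈ e.target) :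
    0 < (coef e q).det := by
  rw [invar_det]
  linarith [(coef_pos he hq).2]

theorem invar_sqrt_mul_inv {e : OpenPartialHomeomorph M Plane}
    (he : e ∈ IsManifold.maximalAtlas (𝓡 2) ∞ M) {q : Plane} (hq : q ∈ e.target) (i j : Fin 2) :
    √(coef e q).det * (coef e q)⁻¹ i j = (√(coef e q).det)⁻¹ * (coef e q).adjugate i j := by
  have hd := invar_det_pos he hq
  have hs := Real.sqrt_pos.2 hd
  rw [Matrix.inv_def, Ring.inverse_eq_inv', Matrix.smul_apply, smul_eq_mul]
  have h2 : (coef e q).det = √(coef e q).det * √(coef e q).det := (Real.mul_self_sqrt hd.le).symm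
  rw [← mul_assoc]
  congr 1
  nth_rw 2 [h2]
  field_simp

theorem invarFlux_zero {e : OpenPartialHomeomorph M Plane}
    (he : e ∈ IsManifold.maximalAtlas (𝓡 2) ∞ M) {q : Plane} (hq : q ∈ e.target) (φ : M → ℝ) :
    invarFlux e φ 0 q = (√(coef e q).det)⁻¹ *
      (coef e q 1 1 * pder 0 (fun y => φ (e.symm y)) q -
        coef e q 0 1 * pder 1 (fun y => φ (e.symm y)) q) := by
  unfold invarFlux
  rw [Fin.sum_univ_two, invar_sqrt_mul_inv he hq, invar_sqrt_mul_inv he hq,
    Matrix.adjugate_fin_two]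
  simp
  ring

theorem invarFlux_one {e : OpenPartialHomeomorph M Plane}
    (he : e ∈ IsManifold.maximalAtlas (𝓡 2) ∞ M) {q : Plane} (hq : q ∈ e.target) (φ : M → ℝ) :
    invarFlux e φ 1 q = (√(coef e q).det)⁻¹ *
      (-coef e q 0 1 * pder 0 (fun y => φ (e.symm y)) q +
        coef e q 0 0 * pder 1 (fun y => φ (e.symm y)) q) := by
  unfold invarFlux
  rw [Fin.sum_univ_two, invar_sqrt_mul_inv he hq, invar_sqrt_mul_inv he hq,
    Matrix.adjugate_fin_two]
  have h := coef_symm e q 1 0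
  simp [h]
  ring

variable [IsContMDiffRiemannianBundle (𝓡 2) ∞ Plane (fun x : M => TangentSpace (𝓡 2) x)]

theorem invar_contDiffAt_coef {e : OpenPartialHomeomorph M Plane}
    (he : e ∈ IsManifold.maximalAtlas (𝓡 2) ∞ M) {p : Plane} (hp : p ∈ e.target) (i j : Fin 2) :
    ContDiffAt ℝ ∞ (fun q => coef e q i j) p :=
  (contDiffOn_coef he i j).contDiffAt (e.open_target.mem_nhds hp)

theorem invar_diff_term {e : OpenPartialHomeomorph M Plane}
    (he : e ∈ IsManifold.maximalAtlas (𝓡 2) ∞ M) {p : Plane} (hp : p ∈ e.target) {φ : M → ℝ}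
    (hφ : ContMDiff (𝓡 2) 𝓘(ℝ, ℝ) ∞ φ) (i j : Fin 2) :
    DifferentiableAt ℝ (fun q => √(coef e q).det * (coef e q)⁻¹ i j *
      pder j (fun y => φ (e.symm y)) q) p := by
  have hc := invar_contDiffAt_coef he hp
  have hdet : ContDiffAt ℝ ∞ (fun q => (coef e q).det) p := by
    have : (fun q => (coef e q).det) = fun q => coef e q 0 0 * coef e q 1 1 -
        coef e q 0 1 ^ 2 := by
      funext q
      exact invar_det e q
    rw [this]
    exact ((hc 0 0).mul (hc 1 1)).sub ((hc 0 1).pow 2)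
  have hpos := invar_det_pos he hp
  have hsq : ContDiffAt ℝ ∞ (fun q => √(coef e q).det) p := hdet.sqrt hpos.ne'
  have hinv : ContDiffAt ℝ ∞ (fun q => (√(coef e q).det)⁻¹) p :=
    hsq.inv (Real.sqrt_pos.2 hpos).ne'
  have hadj : ContDiffAt ℝ ∞ (fun q => (coef e q).adjugate i j) p := by
    simp only [Matrix.adjugate_fin_two]
    fin_cases i <;> fin_cases j
    · simpa using hc 1 1
    · simpa using (hc 0 1).neg
    · simpa using (hc 1 0).neg
    · simpa using hc 0 0
  have hu : ContDiffAt ℝ ∞ (fun y => φ (e.symm y)) p :=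
    (contDiffOn_comp_symm he hφ).contDiffAt (e.open_target.mem_nhds hp)
  have hall := ((hinv.mul hadj).mul (invar_contDiffAt_pder hu j)).differentiableAt (by simp)
  refine hall.congr_of_eventuallyEq ?_
  filter_upwards [e.open_target.mem_nhds hp] with q hq
  rw [invar_sqrt_mul_inv he hq]

theorem invar_diff_flux {e : OpenPartialHomeomorph M Plane}
    (he : e ∈ IsManifold.maximalAtlas (𝓡 2) ∞ M) {p : Plane} (hp : p ∈ e.target) {φ : M → ℝ}
    (hφ : ContMDiff (𝓡 2) 𝓘(ℝ, ℝ) ∞ φ) (i : Fin 2) : DifferentiableAt ℝ (invarFlux e φ i) p := by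
  have : invarFlux e φ i = fun q => (√(coef e q).det * (coef e q)⁻¹ i 0 *
      pder 0 (fun y => φ (e.symm y)) q) + (√(coef e q).det * (coef e q)⁻¹ i 1 *
      pder 1 (fun y => φ (e.symm y)) q) := by
    funext q
    unfold invarFlux
    rw [Fin.sum_univ_two]
  rw [this]
  exact (invar_diff_term he hp hφ i 0).fun_add (invar_diff_term he hp hφ i 1)

theorem invar_lap_eq {e : OpenPartialHomeomorph M Plane}
    (he : e ∈ IsManifold.maximalAtlas (𝓡 2) ∞ M) {p : Plane} (hp : p ∈ e.target) {φ : M → ℝ}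
    (hφ : ContMDiff (𝓡 2) 𝓘(ℝ, ℝ) ∞ φ) :
    lap e φ p = (√(coef e p).det)⁻¹ *
      (pder 0 (invarFlux e φ 0) p + pder 1 (invarFlux e φ 1) p) := by
  unfold lap
  rw [Fin.sum_univ_two]
  have h : ∀ i : Fin 2, ∑ j, pder i (fun q => √(coef e q).det * (coef e q)⁻¹ i j *
      pder j (fun y => φ (e.symm y)) q) p = pder i (invarFlux e φ i) p := by
    intro i
    have : invarFlux e φ i = fun q => (√(coef e q).det * (coef e q)⁻¹ i 0 *
        pder 0 (fun y => φ (e.symm y)) q) + (√(coef e q).det * (coef e q)⁻¹ i 1 *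
        pder 1 (fun y => φ (e.symm y)) q) := by
      funext q
      unfold invarFlux
      rw [Fin.sum_univ_two]
    rw [this, invar_pder_add (invar_diff_term he hp hφ i 0) (invar_diff_term he hp hφ i 1),
      Fin.sum_univ_two]
  rw [h, h]

end

/-- the algebra of the change of coordinates, first component -/
theorem invar_alg0 {E F G a b c d u v : ℝ} (hD : 0 < E * G - F ^ 2) (hJ : a * d - b * c ≠ 0)
    {g00 g01 g11 : ℝ} (h00 : g00 = E * (a * a) + F * (a * b + b * a) + G * (b * b))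
    (h01 : g01 = E * (a * c) + F * (a * d + b * c) + G * (b * d))
    (h11 : g11 = E * (c * c) + F * (c * d + d * c) + G * (d * d)) :
    (√(g00 * g11 - g01 ^ 2))⁻¹ * (g11 * (a * u + b * v) - g01 * (c * u + d * v)) =
      ((a * d - b * c) / |a * d - b * c|) *
        (d * ((√(E * G - F ^ 2))⁻¹ * (G * u - F * v)) -
          c * ((√(E * G - F ^ 2))⁻¹ * (-F * u + E * v))) := by
  have e1 : g00 * g11 - g01 ^ 2 = (a * d - b * c) ^ 2 * (E * G - F ^ 2) := by
    rw [h00, h01, h11]
    ring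
  have hs := Real.sqrt_pos.2 hD
  have hJ' : |a * d - b * c| ≠ 0 := abs_ne_zero.2 hJ
  rw [e1, Real.sqrt_mul (sq_nonneg _), Real.sqrt_sq_eq_abs, mul_inv, h01, h11]
  field_simp
  ring

theorem invar_alg1 {E F G a b c d u v : ℝ} (hD : 0 < E * G - F ^ 2) (hJ : a * d - b * c ≠ 0)
    {g00 g01 g11 : ℝ} (h00 : g00 = E * (a * a) + F * (a * b + b * a) + G * (b * b))
    (h01 : g01 = E * (a * c) + F * (a * d + b * c) + G * (b * d))
    (h11 : g11 = E * (c * c) + F * (c * d + d * c) + G * (d * d)) :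
    (√(g00 * g11 - g01 ^ 2))⁻¹ * (-g01 * (a * u + b * v) + g00 * (c * u + d * v)) =
      ((a * d - b * c) / |a * d - b * c|) *
        (-b * ((√(E * G - F ^ 2))⁻¹ * (G * u - F * v)) +
          a * ((√(E * G - F ^ 2))⁻¹ * (-F * u + E * v))) := by
  have e1 : g00 * g11 - g01 ^ 2 = (a * d - b * c) ^ 2 * (E * G - F ^ 2) := by
    rw [h00, h01, h11]
    ring
  have hs := Real.sqrt_pos.2 hD
  have hJ' : |a * d - b * c| ≠ 0 := abs_ne_zero.2 hJ
  rw [e1, Real.sqrt_mul (sq_nonneg _), Real.sqrt_sq_eq_abs, mul_inv, h01, h00]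
  field_simp
  ring

section

variable {M : Type*} [MetricSpace M] [ChartedSpace Plane M] [IsManifold (𝓡 2) ∞ M]
  [RiemannianBundle (fun x : M => TangentSpace (𝓡 2) x)]
  [IsContMDiffRiemannianBundle (𝓡 2) ∞ Plane (fun x : M => TangentSpace (𝓡 2) x)]

/-- The Laplace-Beltrami operator does not depend on the chart.

With `T = e' ∘ e.symm` near `e x`: `coef e q = (DT q)ᵀ (coef e' (T q)) (DT q)` (as in
`mfderiv_trans_symm`: `e.symm = e'.symm ∘ T` near `e x`), `√det (coef e) = |det DT| √det (coef e')`,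
and `√det g g⁻¹ ∇u = (sign) * (the Piola transform of √det g' g'⁻¹ ∇u')`, the sign of `det DT` being
constant near `e x`. Then use `piola`. -/
theorem lap_invariant {e e' : OpenPartialHomeomorph M Plane}
    (he : e ∈ IsManifold.maximalAtlas (𝓡 2) ∞ M) (he' : e' ∈ IsManifold.maximalAtlas (𝓡 2) ∞ M)
    {φ : M → ℝ} (hφ : ContMDiff (𝓡 2) 𝓘(ℝ, ℝ) ∞ φ) {x : M} (hx : x ∈ e.source)
    (hx' : x ∈ e'.source) : lap e φ (e x) = lap e' φ (e' x) := by
  set p : Plane := e x with hpdef
  set T : Plane → Plane := fun q => e' (e.symm q) with hT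
  set Ω : Set Plane := e.target ∩ e.symm ⁻¹' e'.source with hΩ
  have hΩo : IsOpen Ω := e.symm.isOpen_inter_preimage e'.open_source
  have hpt : p ∈ e.target := e.map_source hx
  have hpΩ : p ∈ Ω := ⟨hpt, by
    show e.symm (e x) ∈ e'.source
    rw [e.left_inv hx]
    exact hx'⟩
  have hTp : T p = e' x := by
    simp only [hT, hpdef]
    rw [e.left_inv hx]
  have hTt : ∀ q ∈ Ω, T q ∈ e'.target := fun q hq => e'.map_source hq.2
  have hTs : ContDiffOn ℝ ∞ T Ω := by
    rw [← contMDiffOn_iff_contDiffOn]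
    exact (contMDiffOn_of_mem_maximalAtlas he').comp
      ((contMDiffOn_symm_of_mem_maximalAtlas he).mono Set.inter_subset_left)
      (fun q hq => hq.2)
  have hTat : ∀ q ∈ Ω, ContDiffAt ℝ ∞ T q := fun q hq => hTs.contDiffAt (hΩo.mem_nhds hq)
  have hTd : ∀ q ∈ Ω, DifferentiableAt ℝ T q := fun q hq =>
    (hTat q hq).differentiableAt (by simp)
  -- the differentials of the inverse charts
  have hmf : ∀ q ∈ Ω, ∀ v : Plane, mfderiv (𝓡 2) (𝓡 2) e.symm q v =
      mfderiv (𝓡 2) (𝓡 2) e'.symm (T q) (fderiv ℝ T q v) := by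
    intro q hq v
    have hm' : MDifferentiableAt (𝓡 2) (𝓡 2) e'.symm (T q) :=
      ((contMDiffOn_symm_of_mem_maximalAtlas he').contMDiffAt
        (e'.open_target.mem_nhds (hTt q hq))).mdifferentiableAt (by simp)
    have h3 : (e'.symm ∘ T) =ᶠ[𝓝 q] e.symm := by
      filter_upwards [hΩo.mem_nhds hq] with y hy
      exact e'.left_inv hy.2
    have h4 : mfderiv (𝓡 2) (𝓡 2) (e'.symm ∘ T) q =
        (mfderiv (𝓡 2) (𝓡 2) e'.symm (T q)).comp (mfderiv (𝓡 2) (𝓡 2) T q) :=
      mfderiv_comp q hm' (hTd q hq).mdifferentiableAt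
    have h5 : mfderiv (𝓡 2) (𝓡 2) (e'.symm ∘ T) q = mfderiv (𝓡 2) (𝓡 2) e.symm q :=
      h3.mfderiv_eq
    have h6 : mfderiv (𝓡 2) (𝓡 2) T q = fderiv ℝ T q := mfderiv_eq_fderiv
    rw [← h5, h4, h6]
    rfl
  -- the entries of the differential
  set a : Plane → ℝ := pder 0 (fun y => T y 0) with ha
  set b : Plane → ℝ := pder 0 (fun y => T y 1) with hb
  set c : Plane → ℝ := pder 1 (fun y => T y 0) with hc
  set d : Plane → ℝ := pder 1 (fun y => T y 1) with hd
  have hcoef : ∀ q ∈ Ω, ∀ i j : Fin 2, coef e q i j =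
      coef e' (T q) 0 0 * (pder i (fun y => T y 0) q * pder j (fun y => T y 0) q) +
      coef e' (T q) 0 1 * (pder i (fun y => T y 0) q * pder j (fun y => T y 1) q +
        pder i (fun y => T y 1) q * pder j (fun y => T y 0) q) +
      coef e' (T q) 1 1 * (pder i (fun y => T y 1) q * pder j (fun y => T y 1) q) := by
    intro q hq i j
    have h1 := invarInner_symm e' (T q) (fderiv ℝ T q (ev i)) (fderiv ℝ T q (ev j))
    rw [invar_fderiv_apply (hTd q hq), invar_fderiv_apply (hTd q hq),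
      invar_fderiv_apply (hTd q hq), invar_fderiv_apply (hTd q hq)] at h1
    have h2 : e.symm q = e'.symm (T q) := (e'.left_inv hq.2).symm
    have h3 := invarInner_coef e q i j
    have hi : (mfderiv (𝓡 2) (𝓡 2) e.symm q (ev i) : Plane) =
      mfderiv (𝓡 2) (𝓡 2) e'.symm (T q) (fderiv ℝ T q (ev i)) := hmf q hq (ev i)
    have hj : (mfderiv (𝓡 2) (𝓡 2) e.symm q (ev j) : Plane) =
      mfderiv (𝓡 2) (𝓡 2) e'.symm (T q) (fderiv ℝ T q (ev j)) := hmf q hq (ev j)
    rw [← h1, h3]
    have h4 : ∀ (a a' : M) (v v' w w' : Plane), a = a' → v = v' → w = w' →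
        invarInner a v w = invarInner a' v' w' := by
      rintro _ _ _ _ _ _ rfl rfl rfl
      rfl
    exact h4 _ _ _ _ _ _ h2 hi hj
  have h00 : ∀ q ∈ Ω, coef e q 0 0 = coef e' (T q) 0 0 * (a q * a q) +
      coef e' (T q) 0 1 * (a q * b q + b q * a q) + coef e' (T q) 1 1 * (b q * b q) :=
    fun q hq => hcoef q hq 0 0
  have h01 : ∀ q ∈ Ω, coef e q 0 1 = coef e' (T q) 0 0 * (a q * c q) +
      coef e' (T q) 0 1 * (a q * d q + b q * c q) + coef e' (T q) 1 1 * (b q * d q) :=
    fun q hq => hcoef q hq 0 1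
  have h11 : ∀ q ∈ Ω, coef e q 1 1 = coef e' (T q) 0 0 * (c q * c q) +
      coef e' (T q) 0 1 * (c q * d q + d q * c q) + coef e' (T q) 1 1 * (d q * d q) :=
    fun q hq => hcoef q hq 1 1
  have hdet' : ∀ q ∈ Ω, 0 < coef e' (T q) 0 0 * coef e' (T q) 1 1 - coef e' (T q) 0 1 ^ 2 :=
    fun q hq => by
      have := invar_det_pos he' (hTt q hq)
      rwa [invar_det] at this
  have hdet : ∀ q ∈ Ω, coef e q 0 0 * coef e q 1 1 - coef e q 0 1 ^ 2 =
      (a q * d q - b q * c q) ^ 2 *
        (coef e' (T q) 0 0 * coef e' (T q) 1 1 - coef e' (T q) 0 1 ^ 2) := fun q hq => by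
    rw [h00 q hq, h01 q hq, h11 q hq]
    ring
  have hJ : ∀ q ∈ Ω, a q * d q - b q * c q ≠ 0 := fun q hq h0 => by
    have h1 := invar_det_pos he hq.1
    rw [invar_det, hdet q hq, h0] at h1
    norm_num at h1
  -- the gradients
  have hgrad : ∀ q ∈ Ω, ∀ i : Fin 2, pder i (fun y => φ (e.symm y)) q =
      pder i (fun y => T y 0) q * pder 0 (fun y => φ (e'.symm y)) (T q) +
        pder i (fun y => T y 1) q * pder 1 (fun y => φ (e'.symm y)) (T q) := by
    intro q hq i
    have hV : DifferentiableAt ℝ (fun y => φ (e'.symm y)) (T q) :=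
      ((contDiffOn_comp_symm he' hφ).contDiffAt
        (e'.open_target.mem_nhds (hTt q hq))).differentiableAt (by simp)
    rw [← invar_pder_chain (hTd q hq) hV]
    refine invar_pder_congr ?_ i
    filter_upwards [hΩo.mem_nhds hq] with y hy
    simp only [hT]
    rw [e'.left_inv hy.2]
  -- the flux
  have hflux0 : ∀ q ∈ Ω, invarFlux e φ 0 q = ((a q * d q - b q * c q) / |a q * d q - b q * c q|) *
      (d q * invarFlux e' φ 0 (T q) - c q * invarFlux e' φ 1 (T q)) := by
    intro q hq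
    rw [invarFlux_zero he hq.1, invarFlux_zero he' (hTt q hq), invarFlux_one he' (hTt q hq),
      invar_det, invar_det, hgrad q hq 0, hgrad q hq 1]
    exact invar_alg0 (hdet' q hq) (hJ q hq) (h00 q hq) (h01 q hq) (h11 q hq)
  have hflux1 : ∀ q ∈ Ω, invarFlux e φ 1 q = ((a q * d q - b q * c q) / |a q * d q - b q * c q|) *
      (-b q * invarFlux e' φ 0 (T q) + a q * invarFlux e' φ 1 (T q)) := by
    intro q hq
    rw [invarFlux_one he hq.1, invarFlux_zero he' (hTt q hq), invarFlux_one he' (hTt q hq),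
      invar_det, invar_det, hgrad q hq 0, hgrad q hq 1]
    exact invar_alg1 (hdet' q hq) (hJ q hq) (h00 q hq) (h01 q hq) (h11 q hq)
  -- the sign of the Jacobian is constant near `p`
  have hTk : ∀ k : Fin 2, ContDiffAt ℝ ∞ (fun y => T y k) p := fun k =>
    (EuclideanSpace.proj k : Plane →L[ℝ] ℝ).contDiff.contDiffAt.comp p (hTat p hpΩ)
  have hcd : ∀ i k : Fin 2, ContDiffAt ℝ ∞ (pder i (fun y => T y k)) p := fun i k =>
    invar_contDiffAt_pder (hTk k) i
  set J : Plane → ℝ := fun q => a q * d q - b q * c q with hJdef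
  have hJc : ContinuousAt J p :=
    ((hcd 0 0).continuousAt.mul (hcd 1 1).continuousAt).sub
      ((hcd 0 1).continuousAt.mul (hcd 1 0).continuousAt)
  have hsign : ∀ᶠ q in 𝓝 p, J q / |J q| = J p / |J p| := by
    have h1 : ∀ᶠ q in 𝓝 p, 0 < J q * J p := by
      have h2 : ContinuousAt (fun q => J q * J p) p := hJc.mul continuousAt_const
      have h3 : 0 < J p * J p := mul_self_pos.2 (hJ p hpΩ)
      exact h2.eventually (lt_mem_nhds h3)
    filter_upwards [h1] with q hq
    rcases lt_or_gt_of_ne (hJ p hpΩ) with h2 | h2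
    · have h3 : J q < 0 := by
        by_contra hcon
        push Not at hcon
        have : J q * J p ≤ 0 := mul_nonpos_of_nonneg_of_nonpos hcon h2.le
        linarith only [hq, this]
      have h2' : J p < 0 := h2
      rw [abs_of_neg h3, abs_of_neg h2', div_neg, div_neg, div_self h3.ne, div_self h2'.ne]
    · have h2' : 0 < J p := h2
      have h3 : 0 < J q := by
        by_contra hcon
        push Not at hcon
        have : J q * J p ≤ 0 := mul_nonpos_of_nonpos_of_nonneg hcon h2'.le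
        linarith only [hq, this]
      rw [abs_of_pos h3, abs_of_pos h2', div_self h3.ne', div_self h2'.ne']
  -- conclusion
  have hTpt : T p ∈ e'.target := hTt p hpΩ
  have hF : ∀ i : Fin 2, DifferentiableAt ℝ (invarFlux e' φ i) (T p) :=
    fun i => invar_diff_flux he' hTpt hφ i
  have hFT : ∀ i : Fin 2, DifferentiableAt ℝ (fun q => invarFlux e' φ i (T q)) p :=
    fun i => DifferentiableAt.comp (g := invarFlux e' φ i) p (hF i) (hTd p hpΩ)
  have hdk : ∀ i k : Fin 2, DifferentiableAt ℝ (pder i (fun y => T y k)) p := fun i k =>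
    (hcd i k).differentiableAt (by simp)
  have e0 : pder 0 (invarFlux e φ 0) p = J p / |J p| *
      pder 0 (fun q => d q * invarFlux e' φ 0 (T q) - c q * invarFlux e' φ 1 (T q)) p := by
    rw [← invar_pder_const_mul (((hdk 1 1).fun_mul (hFT 0)).fun_sub ((hdk 1 0).fun_mul (hFT 1)))]
    refine invar_pder_congr ?_ 0
    filter_upwards [hΩo.mem_nhds hpΩ, hsign] with q hq hs
    rw [hflux0 q hq, ← hs]
  have e1 : pder 1 (invarFlux e φ 1) p = J p / |J p| *
      pder 1 (fun q => -b q * invarFlux e' φ 0 (T q) + a q * invarFlux e' φ 1 (T q)) p := by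
    rw [← invar_pder_const_mul (((hdk 0 1).fun_neg.fun_mul (hFT 0)).fun_add
      ((hdk 0 0).fun_mul (hFT 1)))]
    refine invar_pder_congr ?_ 1
    filter_upwards [hΩo.mem_nhds hpΩ, hsign] with q hq hs
    rw [hflux1 q hq, ← hs]
  have hpio := piola (hTat p hpΩ) (hF 0) (hF 1)
  have hpio' : pder 0 (fun q => d q * invarFlux e' φ 0 (T q) - c q * invarFlux e' φ 1 (T q)) p +
      pder 1 (fun q => -b q * invarFlux e' φ 0 (T q) + a q * invarFlux e' φ 1 (T q)) p =
      J p * (pder 0 (invarFlux e' φ 0) (T p) + pder 1 (invarFlux e' φ 1) (T p)) := hpio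
  rw [invar_lap_eq he hpt hφ, ← hTp, invar_lap_eq he' hTpt hφ, e0, e1, ← mul_add, hpio',
    invar_det, invar_det, hdet p hpΩ, Real.sqrt_mul (sq_nonneg _), Real.sqrt_sq_eq_abs, mul_inv]
  have hJp : J p ≠ 0 := hJ p hpΩ
  have hJa : |J p| ≠ 0 := abs_ne_zero.2 hJp
  have e3 : |J p|⁻¹ * (J p / |J p| * J p) = 1 := by
    have : J p * J p = |J p| * |J p| := (abs_mul_abs_self _).symm
    field_simp
    rw [sq, sq]
    exact this
  calc |J p|⁻¹ * (√(coef e' (T p) 0 0 * coef e' (T p) 1 1 - coef e' (T p) 0 1 ^ 2))⁻¹ *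
        (J p / |J p| * (J p * (pder 0 (invarFlux e' φ 0) (T p) +
          pder 1 (invarFlux e' φ 1) (T p))))
      = (|J p|⁻¹ * (J p / |J p| * J p)) *
        ((√(coef e' (T p) 0 0 * coef e' (T p) 1 1 - coef e' (T p) 0 1 ^ 2))⁻¹ *
          (pder 0 (invarFlux e' φ 0) (T p) + pder 1 (invarFlux e' φ 1) (T p))) := by ring
    _ = _ := by rw [e3, one_mul]

/-- The equation of an eigenfunction in the charts of the maximal atlas. -/
theorem IsEigenfunction.chart_equation {lam : ℝ} {φ : M → ℝ} (h : IsEigenfunction lam φ)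
    {e : OpenPartialHomeomorph M Plane} (he : e ∈ IsManifold.maximalAtlas (𝓡 2) ∞ M) {p : Plane}
    (hp : p ∈ e.target) : lap e φ p + lam * φ (e.symm p) = 0 := by
  have h1 := lap_invariant he (IsManifold.chart_mem_maximalAtlas (e.symm p)) h.smooth
    (e.map_target hp) (mem_chart_source Plane (e.symm p))
  rw [e.right_inv hp] at h1
  rw [h1]
  exact h.equation (e.symm p)

end

end Pool.Agent.H94.Geo
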