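import Pool.Agent.H94.Geo.Bilip
import Pool.Agent.H94.Geo.Invar
import Pool.Agent.H94.Geo.Good

set_option autoImplicit false

/-!
# Existence of normalised charts
-/

open Manifold Bundle Metric
open scoped ContDiff Topology
open Pool.Agent.H24.Near (Sol)

noncomputable section

namespace Pool.Agent.H94.Geo

section tau

open Pool.Agent.H24.Near (Smooth d1 d2)

/-- the identification of `ℝ × ℝ` with the Euclidean plane -/
def tau : (ℝ × ℝ) →L[ℝ] Plane := LinearMap.toContinuousLinearMap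
  { toFun := fun a => !₂[a.1, a.2]
    map_add' := by
      intro a b
      ext i
      fin_cases i <;> simp
    map_smul' := by
      intro c a
      ext i
      fin_cases i <;> simp }

lemma tau_apply (a : ℝ × ℝ) : tau a = !₂[a.1, a.2] := rfl

lemma tau_zero_coord (a : ℝ × ℝ) : tau a 0 = a.1 := by simp [tau_apply]

lemma tau_one_coord (a : ℝ × ℝ) : tau a 1 = a.2 := by simp [tau_apply]

lemma tau_e1 : tau (1, 0) = ev 0 := by
  ext i
  fin_cases i <;> simp [tau_apply, ev]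

lemma tau_e2 : tau (0, 1) = ev 1 := by
  ext i
  fin_cases i <;> simp [tau_apply, ev]

lemma tau_surj (v : Plane) : tau (v 0, v 1) = v := by
  ext i
  fin_cases i <;> simp [tau_apply]

lemma norm_tau_sq (a : ℝ × ℝ) : ‖tau a‖ ^ 2 = a.1 ^ 2 + a.2 ^ 2 := by
  rw [EuclideanSpace.norm_sq_eq, Fin.sum_univ_two, tau_zero_coord, tau_one_coord]
  simp

lemma norm_le_norm_tau (a : ℝ × ℝ) : ‖a‖ ≤ ‖tau a‖ := by
  have h := norm_tau_sq a
  rw [Prod.norm_def, Real.norm_eq_abs, Real.norm_eq_abs]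
  apply max_le
  · apply abs_le_of_sq_le_sq _ (norm_nonneg _)
    rw [h]
    nlinarith only [sq_nonneg a.2]
  · apply abs_le_of_sq_le_sq _ (norm_nonneg _)
    rw [h]
    nlinarith only []

lemma norm_tau_le (a : ℝ × ℝ) : ‖tau a‖ ≤ 2 * ‖a‖ := by
  have h := norm_tau_sq a
  have h1 : |a.1| ≤ ‖a‖ := by
    rw [Prod.norm_def]
    exact le_max_left _ _
  have h2 : |a.2| ≤ ‖a‖ := by
    rw [Prod.norm_def]
    exact le_max_right _ _
  have h3 : a.1 ^ 2 ≤ ‖a‖ ^ 2 := sq_le_sq' (by linarith [neg_abs_le a.1]) (le_trans (le_abs_self _) h1)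
  have h4 : a.2 ^ 2 ≤ ‖a‖ ^ 2 := sq_le_sq' (by linarith [neg_abs_le a.2]) (le_trans (le_abs_self _) h2)
  apply le_of_sq_le_sq _ (by positivity)
  rw [h]
  nlinarith only [h3, h4]

/-- the affine parametrisation of a neighbourhood of `p` -/
def aff (p : Plane) (ρ : ℝ) (a : ℝ × ℝ) : Plane := p + ρ • tau a

lemma aff_zero (p : Plane) (ρ : ℝ) : aff p ρ 0 = p := by simp [aff]

lemma hasFDerivAt_aff (p : Plane) (ρ : ℝ) (a : ℝ × ℝ) : HasFDerivAt (aff p ρ) (ρ • tau) a := by
  unfold aff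
  exact (tau.hasFDerivAt.const_smul ρ).const_add p

lemma contDiff_aff (p : Plane) (ρ : ℝ) : ContDiff ℝ ∞ (aff p ρ) := by
  unfold aff
  exact contDiff_const.add (tau.contDiff.const_smul ρ)

lemma d1_aff {g : Plane → ℝ} (p : Plane) (ρ : ℝ) (a : ℝ × ℝ)
    (hg : DifferentiableAt ℝ g (aff p ρ a)) :
    d1 (fun b => g (aff p ρ b)) a = ρ * pder 0 g (aff p ρ a) := by
  have h := hg.hasFDerivAt.comp a (hasFDerivAt_aff p ρ a)
  unfold d1 pder
  rw [show (fun b => g (aff p ρ b)) = g ∘ aff p ρ from rfl, h.fderiv]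
  change fderiv ℝ g (aff p ρ a) (ρ • tau (1, 0)) = _
  rw [tau_e1, map_smul, smul_eq_mul]

lemma d2_aff {g : Plane → ℝ} (p : Plane) (ρ : ℝ) (a : ℝ × ℝ)
    (hg : DifferentiableAt ℝ g (aff p ρ a)) :
    d2 (fun b => g (aff p ρ b)) a = ρ * pder 1 g (aff p ρ a) := by
  have h := hg.hasFDerivAt.comp a (hasFDerivAt_aff p ρ a)
  unfold d2 pder
  rw [show (fun b => g (aff p ρ b)) = g ∘ aff p ρ from rfl, h.fderiv]
  change fderiv ℝ g (aff p ρ a) (ρ • tau (0, 1)) = _
  rw [tau_e2, map_smul, smul_eq_mul]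

lemma d1_congr {f g : ℝ × ℝ → ℝ} {a : ℝ × ℝ} (h : f =ᶠ[𝓝 a] g) : d1 f a = d1 g a := by
  unfold d1
  rw [h.fderiv_eq]

lemma d2_congr {f g : ℝ × ℝ → ℝ} {a : ℝ × ℝ} (h : f =ᶠ[𝓝 a] g) : d2 f a = d2 g a := by
  unfold d2
  rw [h.fderiv_eq]

lemma d1_congr' {f g : ℝ × ℝ → ℝ} {a : ℝ × ℝ} (h : f =ᶠ[𝓝 a] g) : d1 f =ᶠ[𝓝 a] d1 g := by
  filter_upwards [h.eventuallyEq_nhds] with b hb
  exact d1_congr hb

lemma d2_congr' {f g : ℝ × ℝ → ℝ} {a : ℝ × ℝ} (h : f =ᶠ[𝓝 a] g) : d2 f =ᶠ[𝓝 a] d2 g := by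
  filter_upwards [h.eventuallyEq_nhds] with b hb
  exact d2_congr hb

lemma contDiffOn_pder {g : Plane → ℝ} {U : Set Plane} (hU : IsOpen U) (hg : ContDiffOn ℝ ∞ g U)
    (i : Fin 2) : ContDiffOn ℝ ∞ (pder i g) U := by
  unfold pder
  have h1 : ContDiffOn ℝ ∞ (fderiv ℝ g) U := hg.fderiv_of_isOpen hU (by simp)
  exact h1.clm_apply contDiffOn_const

lemma lap_aff {g : Plane → ℝ} {U : Set Plane} (hU : IsOpen U) (hg : ContDiffOn ℝ ∞ g U)
    (p : Plane) (ρ : ℝ) (a : ℝ × ℝ) (ha : aff p ρ a ∈ U) :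
    Pool.Agent.H24.Near.lap (fun b => g (aff p ρ b)) a =
      ρ ^ 2 * (pder 0 (pder 0 g) (aff p ρ a) + pder 1 (pder 1 g) (aff p ρ a)) := by
  have hd : ∀ {f : Plane → ℝ}, ContDiffOn ℝ ∞ f U → ∀ y ∈ U, DifferentiableAt ℝ f y := by
    intro f hf y hy
    exact (hf.contDiffAt (hU.mem_nhds hy)).differentiableAt (by simp)
  have hnear : ∀ᶠ b in 𝓝 a, aff p ρ b ∈ U :=
    (contDiff_aff p ρ).continuous.continuousAt.eventually_mem (hU.mem_nhds ha)
  have h1 : d1 (fun b => g (aff p ρ b)) =ᶠ[𝓝 a] fun b => ρ * pder 0 g (aff p ρ b) := by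
    filter_upwards [hnear] with b hb
    exact d1_aff p ρ b (hd hg _ hb)
  have h2 : d2 (fun b => g (aff p ρ b)) =ᶠ[𝓝 a] fun b => ρ * pder 1 g (aff p ρ b) := by
    filter_upwards [hnear] with b hb
    exact d2_aff p ρ b (hd hg _ hb)
  have hdiff : ∀ i, DifferentiableAt ℝ (fun b => pder i g (aff p ρ b)) a := by
    intro i
    exact DifferentiableAt.comp a (hd (contDiffOn_pder hU hg i) _ ha)
      (hasFDerivAt_aff p ρ a).differentiableAt
  unfold Pool.Agent.H24.Near.lap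
  rw [d1_congr h1, d2_congr h2, Pool.Agent.H24.Near.d1_const_mul ρ (hdiff 0),
    Pool.Agent.H24.Near.d2_const_mul ρ (hdiff 1), d1_aff p ρ a (hd (contDiffOn_pder hU hg 0) _ ha),
    d2_aff p ρ a (hd (contDiffOn_pder hU hg 1) _ ha)]
  ring

/-- the cut-off function -/
def cut : ContDiffBump (0 : ℝ × ℝ) where
  rIn := 19 / 2
  rOut := 99 / 10
  rIn_pos := by norm_num
  rIn_lt_rOut := by norm_num

lemma cut_eventually_one {a : ℝ × ℝ} (ha : a ∈ closedBall (0 : ℝ × ℝ) 9) :
    ∀ᶠ b in 𝓝 a, cut b = 1 := by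
  have h : ball (0 : ℝ × ℝ) (19 / 2) ∈ 𝓝 a := by
    apply isOpen_ball.mem_nhds
    rw [mem_closedBall] at ha
    rw [mem_ball]
    linarith
  filter_upwards [h] with b hb
  exact cut.one_of_mem_closedBall (ball_subset_closedBall hb)

lemma smooth_cut_mul {f : ℝ × ℝ → ℝ} (hf : ContDiffOn ℝ ∞ f (ball 0 10)) :
    Smooth fun a => cut a * f a := by
  unfold Smooth
  rw [contDiff_iff_contDiffAt]
  intro a
  by_cases ha : a ∈ ball (0 : ℝ × ℝ) 10
  · exact cut.contDiff.contDiffAt.mul (hf.contDiffAt (isOpen_ball.mem_nhds ha))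
  · have h : (closedBall (0 : ℝ × ℝ) (99 / 10))ᶜ ∈ 𝓝 a := by
      apply isClosed_closedBall.isOpen_compl.mem_nhds
      intro h
      apply ha
      rw [mem_closedBall] at h
      rw [mem_ball]
      linarith
    have h2 : (fun a => cut a * f a) =ᶠ[𝓝 a] fun _ => (0 : ℝ) := by
      filter_upwards [h] with b hb
      have : cut b = 0 := by
        apply cut.zero_of_le_dist
        by_contra hlt
        apply hb
        rw [mem_closedBall]
        exact (not_le.1 hlt).le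
      rw [this, zero_mul]
    exact contDiffAt_const.congr_of_eventuallyEq h2

end tau

section

variable {M : Type*} [MetricSpace M] [ChartedSpace Plane M] [IsManifold (𝓡 2) ∞ M]
  [RiemannianBundle (fun x : M => TangentSpace (𝓡 2) x)]
  [IsContMDiffRiemannianBundle (𝓡 2) ∞ Plane (fun x : M => TangentSpace (𝓡 2) x)]
  [IsRiemannianManifold (𝓡 2) M]

/-- An isothermal chart gives a normalised chart.

Let `τ (a) = !₂[a.1, a.2]`, `Φ a = e.symm (e x + ρ • τ a)` with `ρ > 0` small (`20 ρ < δ`, `δ` from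
`chart_bilip` at `p = e x`), so that `u a = φ (Φ a)` satisfies `Δu + q u = 0` with
`q a = lam * ρ ^ 2 * w (e x + ρ • τ a)` for `a ∈ closedBall 0 10`; multiply `u` and `q` by a smooth
cut-off function equal to `1` on a neighbourhood of `closedBall 0 9` and supported in
`closedBall 0 10` (`ContDiffBump` or `exists_contMDiff_...`). `W` is chosen so that
`ρ² |w|, ρ³ |∂w| ≤ W ^ 2` on `closedBall 0 9` (compactness). Use `chart_bilip`, `lap_isothermal`,
`contDiffOn_comp_symm`, and `‖a‖ ≤ ‖τ a‖ ≤ 2 ‖a‖`. -/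
theorem exists_goodChart {e : OpenPartialHomeomorph M Plane}
    (he : e ∈ IsManifold.maximalAtlas (𝓡 2) ∞ M) {w : Plane → ℝ} (hw : ContDiffOn ℝ ∞ w e.target)
    (hiso : ∀ p ∈ e.target, 0 < w p ∧ coef e p = w p • (1 : Matrix (Fin 2) (Fin 2) ℝ))
    {x : M} (hx : x ∈ e.source) :
    Nonempty (GoodChart (fun (lam : ℝ) (φ : M → ℝ) => IsEigenfunction lam φ) x) := by
  have hp : e x ∈ e.target := e.map_source hx
  obtain ⟨κ₀, δ, hκ₀, hδ, hδU, hlip, hsurj⟩ := chart_bilip he hp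
  obtain ⟨ρ, hρ⟩ : ∃ ρ : ℝ, ρ = min (δ / 40) (1 / 2) := ⟨_, rfl⟩
  have hρ0 : 0 < ρ := by
    rw [hρ]
    exact lt_min (by linarith) (by norm_num)
  have hρδ : ρ ≤ δ / 40 := by
    rw [hρ]
    exact min_le_left _ _
  have hρ1 : ρ ≤ 1 / 2 := by
    rw [hρ]
    exact min_le_right _ _
  have haffball : ∀ a ∈ closedBall (0 : ℝ × ℝ) 10, aff (e x) ρ a ∈ ball (e x) δ := by
    intro a ha
    rw [mem_closedBall, dist_zero_right] at ha
    rw [mem_ball, dist_eq_norm]
    have h1 : aff (e x) ρ a - e x = ρ • tau a := by simp [aff]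
    rw [h1, norm_smul, Real.norm_eq_abs, abs_of_pos hρ0]
    have h2 := norm_tau_le a
    nlinarith only [hρ0, hρδ, ha, h2]
  have hafft : ∀ a ∈ closedBall (0 : ℝ × ℝ) 10, aff (e x) ρ a ∈ e.target := by
    intro a ha
    exact hδU (ball_subset_ball (by linarith) (haffball a ha))
  have h910 : ∀ a ∈ closedBall (0 : ℝ × ℝ) 9, a ∈ closedBall (0 : ℝ × ℝ) 10 :=
    fun a ha => closedBall_subset_closedBall (by norm_num) ha
  have hcomp : ∀ {g : Plane → ℝ}, ContDiffOn ℝ ∞ g e.target →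
      ContDiffOn ℝ ∞ (fun a => g (aff (e x) ρ a)) (ball (0 : ℝ × ℝ) 10) := by
    intro g hg
    exact hg.comp (contDiff_aff _ _).contDiffOn fun a ha => hafft a (ball_subset_closedBall ha)
  -- the conformal factor
  have hQs : Pool.Agent.H24.Near.Smooth fun a => cut a * (ρ ^ 2 * w (aff (e x) ρ a)) :=
    smooth_cut_mul (contDiffOn_const.mul (hcomp hw))
  obtain ⟨Q, hQ⟩ : ∃ Q : ℝ × ℝ → ℝ, Q = fun a => cut a * (ρ ^ 2 * w (aff (e x) ρ a)) := ⟨_, rfl⟩
  rw [← hQ] at hQs
  obtain ⟨B, hB1, hB⟩ : ∃ B : ℝ, 1 ≤ B ∧ ∀ a ∈ closedBall (0 : ℝ × ℝ) 9, |Q a| ≤ B ∧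
      |Pool.Agent.H24.Near.d1 Q a| ≤ B ∧ |Pool.Agent.H24.Near.d2 Q a| ≤ B := by
    refine ⟨max 1 (max (Pool.Agent.H24.Near.M Q 0 9)
      (max (Pool.Agent.H24.Near.M (Pool.Agent.H24.Near.d1 Q) 0 9)
        (Pool.Agent.H24.Near.M (Pool.Agent.H24.Near.d2 Q) 0 9))), le_max_left _ _, ?_⟩
    intro a ha
    refine ⟨?_, ?_, ?_⟩
    · exact (Pool.Agent.H24.Near.le_M hQs.continuous ha).trans
        ((le_max_left _ _).trans (le_max_right _ _))
    · exact (Pool.Agent.H24.Near.le_M hQs.d1.continuous ha).trans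
        ((le_max_left _ _).trans ((le_max_right _ _).trans (le_max_right _ _)))
    · exact (Pool.Agent.H24.Near.le_M hQs.d2.continuous ha).trans
        ((le_max_right _ _).trans ((le_max_right _ _).trans (le_max_right _ _)))
  refine ⟨⟨fun a => e.symm (aff (e x) ρ a), κ₀ / ρ, B, ?_, hB1, ?_, ?_, ?_, ?_⟩⟩
  · rw [le_div_iff₀ hρ0]
    linarith
  · change e.symm (aff (e x) ρ 0) = x
    rw [aff_zero, e.left_inv hx]
  · intro a ha b hb
    have h1 := hlip _ (haffball a (h910 a ha)) _ (haffball b (h910 b hb))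
    refine h1.trans ?_
    have h2 : dist (aff (e x) ρ a) (aff (e x) ρ b) = ρ * ‖tau (a - b)‖ := by
      rw [dist_eq_norm]
      have : aff (e x) ρ a - aff (e x) ρ b = ρ • tau (a - b) := by
        unfold aff
        rw [map_sub, smul_sub]
        abel
      rw [this, norm_smul, Real.norm_eq_abs, abs_of_pos hρ0]
    rw [h2, dist_eq_norm, div_mul_eq_mul_div, le_div_iff₀ hρ0]
    have h3 := norm_tau_le (a - b)
    have h4 : ρ * ‖tau (a - b)‖ * ρ ≤ ‖a - b‖ := by
      have : ρ * ρ ≤ 1 / 4 := by nlinarith only [hρ0, hρ1]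
      nlinarith only [h3, this, norm_nonneg (tau (a - b))]
    nlinarith only [hκ₀, h4]
  · intro a ha s hs hs1 y hy
    have ha10 : a ∈ closedBall (0 : ℝ × ℝ) 10 := closedBall_subset_closedBall (by norm_num) ha
    have h1 : s / (κ₀ / ρ) = ρ * s / κ₀ := by
      field_simp
    rw [h1] at hy
    obtain ⟨q, hq, rfl⟩ := hsurj _ (haffball a ha10) (ρ * s) (by positivity)
      (by nlinarith only [hρ0, hρδ, hs1]) hy
    refine ⟨a + ρ⁻¹ • ((q - aff (e x) ρ a) 0, (q - aff (e x) ρ a) 1), ?_, ?_⟩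
    · rw [mem_closedBall, dist_eq_norm, add_sub_cancel_left, norm_smul, Real.norm_eq_abs,
        abs_of_pos (inv_pos.2 hρ0)]
      have h2 := norm_le_norm_tau ((q - aff (e x) ρ a) 0, (q - aff (e x) ρ a) 1)
      rw [tau_surj] at h2
      rw [mem_ball, dist_eq_norm] at hq
      rw [inv_mul_le_iff₀ hρ0]
      linarith
    · change e.symm (aff (e x) ρ (a + ρ⁻¹ • _)) = e.symm q
      congr 1
      unfold aff
      rw [map_add, map_smul, tau_surj, smul_add, smul_smul, mul_inv_cancel₀ hρ0.ne', one_smul]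
      abel
  · intro N hN lam hlam hlamN φ hφ
    have hg := contDiffOn_comp_symm he hφ.smooth
    have hus : Pool.Agent.H24.Near.Smooth fun a => cut a * φ (e.symm (aff (e x) ρ a)) :=
      smooth_cut_mul (hcomp hg)
    have hB2 : lam * B ≤ (B * N) ^ 2 := by
      have h1 : lam * B ≤ N ^ 2 * B := mul_le_mul_of_nonneg_right hlamN (by linarith)
      have h2 : N ^ 2 * B ≤ (B * N) ^ 2 := by
        have : (B * N) ^ 2 = N ^ 2 * B * B := by ring
        rw [this]
        exact le_mul_of_one_le_right (by positivity) hB1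
      exact h1.trans h2
    refine ⟨fun a => lam * Q a, fun a => cut a * φ (e.symm (aff (e x) ρ a)), ?_, ?_⟩
    · refine ⟨contDiff_const.mul hQs, hus, ?_, ?_, ?_, ?_⟩
      · intro a ha
        have hev : (fun a => cut a * φ (e.symm (aff (e x) ρ a))) =ᶠ[𝓝 a]
            fun a => φ (e.symm (aff (e x) ρ a)) := by
          filter_upwards [cut_eventually_one ha] with b hb
          rw [hb, one_mul]
        have hlap : Pool.Agent.H24.Near.lap (fun a => cut a * φ (e.symm (aff (e x) ρ a))) a =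
            Pool.Agent.H24.Near.lap (fun a => φ (e.symm (aff (e x) ρ a))) a := by
          unfold Pool.Agent.H24.Near.lap
          rw [d1_congr (d1_congr' hev), d2_congr (d2_congr' hev)]
        have hcut1 : cut a = 1 := (cut_eventually_one ha).self_of_nhds
        have hlap2 := lap_aff e.open_target hg (e x) ρ a (hafft a (h910 a ha))
        have heq := hφ.chart_equation he (hafft a (h910 a ha))
        rw [lap_isothermal hiso φ (hafft a (h910 a ha))] at heq
        have hwp := (hiso _ (hafft a (h910 a ha))).1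
        rw [hlap, hlap2, hQ]
        simp only [hcut1, one_mul]
        have h3 : pder 0 (pder 0 fun y => φ (e.symm y)) (aff (e x) ρ a) +
            pder 1 (pder 1 fun y => φ (e.symm y)) (aff (e x) ρ a) =
            - (w (aff (e x) ρ a) * (lam * φ (e.symm (aff (e x) ρ a)))) := by
          have h4 : (w (aff (e x) ρ a))⁻¹ *
              (pder 0 (pder 0 fun y => φ (e.symm y)) (aff (e x) ρ a) +
              pder 1 (pder 1 fun y => φ (e.symm y)) (aff (e x) ρ a)) =
              - (lam * φ (e.symm (aff (e x) ρ a))) := by linarith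
          rw [inv_mul_eq_iff_eq_mul₀ hwp.ne'] at h4
          rw [h4]
          ring
        rw [h3]
        ring
      · intro a ha
        rw [abs_mul, abs_of_pos hlam]
        exact (mul_le_mul_of_nonneg_left (hB a ha).1 hlam.le).trans hB2
      · intro a ha
        rw [Pool.Agent.H24.Near.d1_const_mul lam (hQs.differentiable a), abs_mul, abs_of_pos hlam]
        exact (mul_le_mul_of_nonneg_left (hB a ha).2.1 hlam.le).trans hB2
      · intro a ha
        rw [Pool.Agent.H24.Near.d2_const_mul lam (hQs.differentiable a), abs_mul, abs_of_pos hlam]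
        exact (mul_le_mul_of_nonneg_left (hB a ha).2.2 hlam.le).trans hB2
    · intro a ha
      have hcut1 : cut a = 1 := (cut_eventually_one ha).self_of_nhds
      change cut a * _ = _
      rw [hcut1, one_mul]

end

end Pool.Agent.H94.Geo
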