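import Pool.Agent.H94.Geo.Isothermal
import Pool.Agent.H94.Geo.GoodExists
import Pool.Agent.H94.Geo.Conn
import Pool.Agent.H94.Geo.Abstract

set_option autoImplicit false

/-!
# The bounded average on closed surfaces from the local theorem
-/

open Manifold Bundle
open scoped ContDiff Topology

noncomputable section

namespace Pool.Agent.H94.Geo

/-- The local theorem implies the bounded average of the doubling index on closed surfaces. -/
theorem q1_of_locB (hB : LocB) : Q1 := by
  intro M _ _ _ _ _ _ _ C C₁ C₂ hC _ hC₂
  have hconn : PreconnectedSpace M := preconnectedSpace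
  have hG : ∀ x : M, Nonempty (GoodChart (fun (lam : ℝ) (φ : M → ℝ) => IsEigenfunction lam φ) x) := by
    intro x
    obtain ⟨e, he, hx, w, hw, hiso⟩ := exists_isothermal x
    exact exists_goodChart he hw hiso hx
  obtain ⟨A, hA⟩ := abstract_average
    (P := fun (lam : ℝ) (φ : M → ℝ) => IsEigenfunction lam φ)
    (fun lam φ h => ⟨h.smooth.continuous, h.ne_zero⟩) hG hB (C₁ := C₁) hC hC₂
  exact ⟨A, fun lam hlam φ hφ ι _ c h => hA lam hlam φ hφ ι c h⟩

end Pool.Agent.H94.Geo
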