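import Pool.Agent.H94.Geo.Defs

set_option autoImplicit false

/-!
# Smooth charts are locally bi-Lipschitz for the Riemannian distance
-/

open Manifold Bundle
open scoped ContDiff Topology

noncomputable section

namespace Pool.Agent.H94.Geo

section Aux

open Metric Set MeasureTheory Filter
open scoped ENNReal NNReal

variable {M : Type*} [MetricSpace M] [ChartedSpace Plane M] [IsManifold (𝓡 2) ∞ M]
  [RiemannianBundle (fun x : M => TangentSpace (𝓡 2) x)]

attribute [local instance] normedAddCommGroupTangentSpaceVectorSpace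
attribute [local instance] normedSpaceTangentSpaceVectorSpace

set_option backward.isDefEq.respectTransparency false in
/-- In the preferred chart at `x`, the inverse of the chart is Lipschitz near `x`. -/
theorem bilip_upper [IsContinuousRiemannianBundle Plane (fun x : M => TangentSpace (𝓡 2) x)]
    (x : M) : ∃ C > (0 : ℝ≥0), ∃ r > 0, ball (extChartAt (𝓡 2) x x) r ⊆ (extChartAt (𝓡 2) x).target ∧
      ∀ a ∈ ball (extChartAt (𝓡 2) x x) r, ∀ b ∈ ball (extChartAt (𝓡 2) x x) r,
        riemannianEDist (𝓡 2) ((extChartAt (𝓡 2) x).symm a) ((extChartAt (𝓡 2) x).symm b) ≤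
          C * edist a b := by
  rcases eventually_enorm_mfderivWithin_symm_extChartAt_lt (𝓡 2) x with ⟨C, C_pos, hC⟩
  obtain ⟨r, r_pos, hr⟩ : ∃ r > 0,
      ball (extChartAt (𝓡 2) x x) r ∩ range (𝓡 2) ⊆ (extChartAt (𝓡 2) x).target ∩
        {y | ‖mfderivWithin 𝓘(ℝ, Plane) (𝓡 2) (extChartAt (𝓡 2) x).symm (range (𝓡 2)) y‖ₑ < C} :=
    mem_nhdsWithin_iff.1 (inter_mem (extChartAt_target_mem_nhdsWithin x) hC)
  have hrange : range (𝓡 2) = (univ : Set Plane) := by simp
  have hr' : ball (extChartAt (𝓡 2) x x) r ⊆ (extChartAt (𝓡 2) x).target ∩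
        {y | ‖mfderivWithin 𝓘(ℝ, Plane) (𝓡 2) (extChartAt (𝓡 2) x).symm (range (𝓡 2)) y‖ₑ < C} := by
    intro q hq
    exact hr ⟨hq, by rw [hrange]; trivial⟩
  refine ⟨C, C_pos, r, r_pos, fun q hq => (hr' hq).1, ?_⟩
  intro a ha b hb
  let η := ContinuousAffineMap.lineMap (R := ℝ) a b
  set γ := (extChartAt (𝓡 2) x).symm ∘ η
  have hη : Icc 0 1 ⊆ ⇑η ⁻¹' ((extChartAt (𝓡 2) x).target ∩
        {y | ‖mfderivWithin 𝓘(ℝ, Plane) (𝓡 2) (extChartAt (𝓡 2) x).symm (range (𝓡 2)) y‖ₑ < C}) := by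
    simp only [← image_subset_iff, ContinuousAffineMap.coe_lineMap_eq,
     ← segment_eq_image_lineMap, η]
    apply Subset.trans _ hr'
    exact (convex_ball _ _).segment_subset ha hb
  simp only [preimage_inter, subset_inter_iff] at hη
  have η_smooth : ContMDiffOn 𝓘(ℝ, ℝ) 𝓘(ℝ, Plane) 1 η (Icc 0 1) := by
    apply ContMDiff.contMDiffOn
    rw [contMDiff_iff_contDiff]
    exact ContinuousAffineMap.contDiff _
  have : riemannianEDist (𝓡 2) ((extChartAt (𝓡 2) x).symm a) ((extChartAt (𝓡 2) x).symm b) ≤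
      pathELength (𝓡 2) γ 0 1 := by
    apply riemannianEDist_le_pathELength _ _ _ zero_le_one
    · exact (contMDiffOn_extChartAt_symm x).comp η_smooth hη.1
    · simp [γ, η, ContinuousAffineMap.coe_lineMap_eq]
    · simp [γ, η, ContinuousAffineMap.coe_lineMap_eq]
  apply this.trans
  rw [← lintegral_fderiv_lineMap_eq_edist, pathELength_eq_lintegral_mfderivWithin_Icc,
    ← lintegral_const_mul' _ _ ENNReal.coe_ne_top]
  apply setLIntegral_mono' measurableSet_Icc (fun t ht ↦ ?_)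
  have : mfderivWithin 𝓘(ℝ, ℝ) (𝓡 2) γ (Icc 0 1) t =
      (mfderivWithin 𝓘(ℝ, Plane) (𝓡 2) (extChartAt (𝓡 2) x).symm (range (𝓡 2)) (η t)) ∘L (mfderivWithin 𝓘(ℝ, ℝ) 𝓘(ℝ, Plane) η (Icc 0 1) t) := by
    apply mfderivWithin_comp
    · exact mdifferentiableWithinAt_extChartAt_symm (hη.1 ht)
    · exact η_smooth.mdifferentiableOn one_ne_zero t ht
    · exact hη.1.trans (preimage_mono (extChartAt_target_subset_range x))
    · rw [uniqueMDiffWithinAt_iff_uniqueDiffWithinAt]
      exact uniqueDiffOn_Icc zero_lt_one t ht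
  have : mfderivWithin 𝓘(ℝ, ℝ) (𝓡 2) γ (Icc 0 1) t 1 =
      (mfderivWithin 𝓘(ℝ, Plane) (𝓡 2) (extChartAt (𝓡 2) x).symm (range (𝓡 2)) (η t)) (mfderivWithin 𝓘(ℝ, ℝ) 𝓘(ℝ, Plane) η (Icc 0 1) t 1) :=
    congr($this 1)
  rw [this]
  apply (ContinuousLinearMap.le_opENorm _ _).trans
  gcongr
  · exact (hη.2 ht).le
  · simp only [mfderivWithin_eq_fderivWithin]
    exact le_of_eq rfl

set_option backward.isDefEq.respectTransparency false in
/-- The preferred chart at `x` is Lipschitz near `x`. -/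
theorem bilip_lower [IsContinuousRiemannianBundle Plane (fun x : M => TangentSpace (𝓡 2) x)]
    [IsRiemannianManifold (𝓡 2) M]
    (x : M) : ∃ C > (0 : ℝ≥0), ∃ r > 0, ball x r ⊆ (extChartAt (𝓡 2) x).source ∧
      ∀ y ∈ ball x r, ∀ z ∈ ball x r,
        edist (extChartAt (𝓡 2) x y) (extChartAt (𝓡 2) x z) ≤ C * edist y z := by
  rcases eventually_enorm_mfderiv_extChartAt_lt (𝓡 2) x with ⟨C, C_pos, hC⟩
  obtain ⟨r, r_pos, hr⟩ : ∃ r > 0, ball x r ⊆
      {y | ‖mfderiv (𝓡 2) 𝓘(ℝ, Plane) (extChartAt (𝓡 2) x) y‖ₑ < C} ∩ (extChartAt (𝓡 2) x).source :=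
    Metric.mem_nhds_iff.1 (Filter.inter_mem hC (extChartAt_source_mem_nhds (I := 𝓡 2) x))
  refine ⟨C, C_pos, r / 3, by positivity, ?_, ?_⟩
  · intro y hy
    exact (hr (ball_subset_ball (by linarith only [r_pos]) hy)).2
  intro y hy z hz
  have hyz : dist y z < 2 * (r / 3) := by
    have := dist_triangle_right y z x
    rw [mem_ball] at hy hz
    linarith
  -- bound for each path
  have key : ∀ l : ℝ≥0∞, edist y z < l → l < ENNReal.ofReal (2 * (r / 3)) →
      edist (extChartAt (𝓡 2) x y) (extChartAt (𝓡 2) x z) ≤ C * l := by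
    intro l hl hl'
    rw [IsRiemannianManifold.out (I := 𝓡 2) y z] at hl
    rcases exists_lt_locally_constant_of_riemannianEDist_lt hl zero_lt_one
      with ⟨γ, hγx, hγy, γ_smooth, hγ, -⟩
    have hin : ∀ t ∈ Icc (0 : ℝ) 1, γ t ∈ ball x r := by
      intro t ht
      have h1 : edist y (γ t) ≤ pathELength (𝓡 2) γ 0 t := by
        rw [IsRiemannianManifold.out (I := 𝓡 2) y (γ t)]
        exact riemannianEDist_le_pathELength γ_smooth.contMDiffOn hγx rfl ht.1
      have h2 : edist y (γ t) < ENNReal.ofReal (2 * (r / 3)) :=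
        (h1.trans (pathELength_mono le_rfl ht.2)).trans_lt (hγ.trans hl')
      rw [edist_dist, ENNReal.ofReal_lt_ofReal_iff (by positivity)] at h2
      have := dist_triangle (γ t) y x
      rw [mem_ball] at hy ⊢
      rw [dist_comm] at h2
      linarith only [hy, h2, this]
    let γ' := extChartAt (𝓡 2) x ∘ γ
    have uc : ∀ t ∈ Icc (0 : ℝ) 1, γ t ∈ (chartAt Plane x).source := by
      intro t ht
      simpa [extChartAt_source] using (hr (hin t ht)).2
    have hC' : ContMDiffOn 𝓘(ℝ, ℝ) 𝓘(ℝ, Plane) 1 γ' (Icc 0 1) :=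
      contMDiffOn_extChartAt.comp (I' := (𝓡 2)) (t := (chartAt Plane x).source)
        γ_smooth.contMDiffOn (fun t' ht' ↦ uc t' ht')
    calc edist (extChartAt (𝓡 2) x y) (extChartAt (𝓡 2) x z)
        = ‖γ' 1 - γ' 0‖ₑ := by
          rw [edist_comm, edist_eq_enorm_sub]; simp [γ', hγx, hγy]
      _ ≤ ∫⁻ t' in Icc 0 1, ‖derivWithin γ' (Icc 0 1) t'‖ₑ := by
          apply enorm_sub_le_lintegral_derivWithin_Icc_of_contDiffOn_Icc _ zero_le_one
          rwa [← contMDiffOn_iff_contDiffOn]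
      _ = ∫⁻ t' in Icc 0 1, ‖mfderivWithin 𝓘(ℝ, ℝ) 𝓘(ℝ, Plane) γ' (Icc 0 1) t' 1‖ₑ := by
          simp_rw [← fderivWithin_derivWithin, mfderivWithin_eq_fderivWithin]
          rfl
      _ ≤ ∫⁻ t' in Icc 0 1, C * ‖mfderivWithin 𝓘(ℝ, ℝ) (𝓡 2) γ (Icc 0 1) t' 1‖ₑ := by
          apply setLIntegral_mono' measurableSet_Icc (fun t' ht' ↦ ?_)
          have : mfderivWithin 𝓘(ℝ, ℝ) 𝓘(ℝ, Plane) γ' (Icc 0 1) t' =
              (mfderiv (𝓡 2) 𝓘(ℝ, Plane) (extChartAt (𝓡 2) x) (γ t')) ∘L (mfderivWithin 𝓘(ℝ, ℝ) (𝓡 2) γ (Icc 0 1) t') := by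
            apply mfderiv_comp_mfderivWithin
            · exact mdifferentiableAt_extChartAt (uc t' ht')
            · exact (γ_smooth.mdifferentiable one_ne_zero).mdifferentiableOn _ ht'
            · rw [uniqueMDiffWithinAt_iff_uniqueDiffWithinAt]
              exact uniqueDiffOn_Icc zero_lt_one _ ht'
          have : mfderivWithin 𝓘(ℝ, ℝ) 𝓘(ℝ, Plane) γ' (Icc 0 1) t' 1 =
              (mfderiv (𝓡 2) 𝓘(ℝ, Plane) (extChartAt (𝓡 2) x) (γ t')) (mfderivWithin 𝓘(ℝ, ℝ) (𝓡 2) γ (Icc 0 1) t' 1) :=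
            congr($this 1)
          rw [this]
          apply (ContinuousLinearMap.le_opENorm _ _).trans
          gcongr
          exact (hr (hin t' ht')).1.le
      _ = C * pathELength (𝓡 2) γ 0 1 := by
          rw [lintegral_const_mul' _ _ ENNReal.coe_ne_top,
              pathELength_eq_lintegral_mfderivWithin_Icc]
      _ ≤ C * l := by gcongr
  have hyz' : edist y z < ENNReal.ofReal (2 * (r / 3)) := by
    rw [edist_dist]
    exact ENNReal.ofReal_lt_ofReal_iff (by positivity) |>.2 hyz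
  -- pass to the limit
  obtain ⟨u, hu1, hu2, hu3⟩ : ∃ u : ℕ → ℝ≥0∞, (∀ n, edist y z < u n) ∧
      (∀ n, u n < ENNReal.ofReal (2 * (r / 3))) ∧ Tendsto u atTop (𝓝 (edist y z)) := by
    obtain ⟨u, -, h1, h2⟩ := exists_seq_strictAnti_tendsto' hyz'
    exact ⟨u, fun n => (h1 n).1, fun n => (h1 n).2, h2⟩
  refine ge_of_tendsto' (ENNReal.Tendsto.const_mul hu3 (Or.inr ENNReal.coe_ne_top)) fun n => ?_
  exact key (u n) (hu1 n) (hu2 n)

end Aux

section

variable {M : Type*} [MetricSpace M] [ChartedSpace Plane M] [IsManifold (𝓡 2) ∞ M]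
  [RiemannianBundle (fun x : M => TangentSpace (𝓡 2) x)]
  [IsContMDiffRiemannianBundle (𝓡 2) ∞ Plane (fun x : M => TangentSpace (𝓡 2) x)]

/-- A smooth Riemannian metric is continuous. -/
theorem isContinuousRiemannianBundle :
    IsContinuousRiemannianBundle Plane (fun x : M => TangentSpace (𝓡 2) x) := by
  obtain ⟨g, hg, hg'⟩ := IsContMDiffRiemannianBundle.exists_contMDiff (IB := 𝓡 2) (n := ∞)
    (F := Plane) (E := fun x : M => TangentSpace (𝓡 2) x)
  exact ⟨g, hg.continuous, hg'⟩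

variable [IsRiemannianManifold (𝓡 2) M]

section Aux2

open Metric Set MeasureTheory Filter
open scoped ENNReal NNReal

/-- Charts of the maximal atlas are locally bi-Lipschitz: reduction to the preferred chart. -/
theorem chart_bilip_aux {e : OpenPartialHomeomorph M Plane}
    (he : e ∈ IsManifold.maximalAtlas (𝓡 2) ∞ M) {p : Plane} (hp : p ∈ e.target) :
    ∃ κ δ : ℝ, 1 ≤ κ ∧ 0 < δ ∧ Metric.ball p (2 * δ) ⊆ e.target ∧
      (∀ a ∈ Metric.ball p δ, ∀ b ∈ Metric.ball p δ,
        dist (e.symm a) (e.symm b) ≤ κ * dist a b) ∧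
      ∀ a ∈ Metric.ball p δ, ∀ s, 0 < s → s ≤ δ →
        Metric.ball (e.symm a) (s / κ) ⊆ e.symm '' Metric.ball a s := by
  have := isContinuousRiemannianBundle (M := M)
  set x : M := e.symm p with hx
  have hxs : x ∈ e.source := e.map_target hp
  obtain ⟨C1, hC1, r1, hr1, ht1, hup⟩ := bilip_upper (M := M) x
  obtain ⟨C2, hC2, r2, hr2, hs2, hlo⟩ := bilip_lower (M := M) x
  set c := chartAt Plane x with hc
  have hcm : c ∈ IsManifold.maximalAtlas (𝓡 2) ∞ M := IsManifold.chart_mem_maximalAtlas x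
  have hxc : x ∈ c.source := mem_chart_source Plane x
  have hcx : ∀ y, extChartAt (𝓡 2) x y = c y := fun y => by simp [hc]
  have hcs : ∀ y, (extChartAt (𝓡 2) x).symm y = c.symm y := fun y => by simp [hc]
  have hsrc : (extChartAt (𝓡 2) x).source = c.source := by simp [hc]
  have htgt : (extChartAt (𝓡 2) x).target = c.target := by simp [hc]
  rw [hcx] at ht1 hup
  rw [htgt] at ht1
  rw [hsrc] at hs2
  simp only [hcx] at hlo
  simp only [hcs] at hup
  -- the transition maps
  have hT : ContDiffAt ℝ 1 (fun a => c (e.symm a)) p := by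
    have h1 : ContMDiffAt (𝓡 2) (𝓡 2) ∞ e.symm p :=
      (contMDiffOn_symm_of_mem_maximalAtlas he).contMDiffAt (e.open_target.mem_nhds hp)
    have h2 : ContMDiffAt (𝓡 2) (𝓡 2) ∞ c (e.symm p) :=
      (contMDiffOn_of_mem_maximalAtlas hcm).contMDiffAt (c.open_source.mem_nhds hxc)
    have h3 : ContMDiffAt (𝓡 2) (𝓡 2) ∞ (c ∘ e.symm) p := h2.comp p h1
    have h4 : ContDiffAt ℝ ∞ (c ∘ e.symm) p := contMDiffAt_iff_contDiffAt.1 h3
    exact h4.of_le (by exact_mod_cast le_top)
  have hT' : ContDiffAt ℝ 1 (fun a => e (c.symm a)) (c x) := by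
    have h1 : ContMDiffAt (𝓡 2) (𝓡 2) ∞ c.symm (c x) :=
      (contMDiffOn_symm_of_mem_maximalAtlas hcm).contMDiffAt
        (c.open_target.mem_nhds (c.map_source hxc))
    have h2 : ContMDiffAt (𝓡 2) (𝓡 2) ∞ e (c.symm (c x)) := by
      rw [c.left_inv hxc]
      exact (contMDiffOn_of_mem_maximalAtlas he).contMDiffAt (e.open_source.mem_nhds hxs)
    have h3 : ContMDiffAt (𝓡 2) (𝓡 2) ∞ (e ∘ c.symm) (c x) := h2.comp (c x) h1
    have h4 : ContDiffAt ℝ ∞ (e ∘ c.symm) (c x) := contMDiffAt_iff_contDiffAt.1 h3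
    exact h4.of_le (by exact_mod_cast le_top)
  obtain ⟨K, U, hU, hK⟩ := hT.exists_lipschitzOnWith
  obtain ⟨K', U', hU', hK'⟩ := hT'.exists_lipschitzOnWith
  -- the radius `r3` in `M`
  obtain ⟨r3, hr3, h3⟩ : ∃ r3 > 0, ball x r3 ⊆ ball x r2 ∩ (e.source ∩ c ⁻¹' U') := by
    refine Metric.mem_nhds_iff.1 (Filter.inter_mem (ball_mem_nhds _ hr2)
      (Filter.inter_mem (e.open_source.mem_nhds hxs) ?_))
    exact (c.continuousAt hxc).preimage_mem_nhds hU'
  -- the radius in the plane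
  have hes : ContinuousAt e.symm p := e.symm.continuousAt hp
  obtain ⟨d, hd, h4⟩ : ∃ d > 0, ball p d ⊆ (e.target ∩ U) ∩
      ((fun a => c (e.symm a)) ⁻¹' (ball (c x) r1) ∩
        (e.symm ⁻¹' c.source ∩ e.symm ⁻¹' (ball x (r3 / 2)))) := by
    refine Metric.mem_nhds_iff.1 (Filter.inter_mem (Filter.inter_mem
      (e.open_target.mem_nhds hp) hU) (Filter.inter_mem ?_ (Filter.inter_mem ?_ ?_)))
    · exact hT.continuousAt.preimage_mem_nhds (ball_mem_nhds _ hr1)
    · exact hes.preimage_mem_nhds (c.open_source.mem_nhds hxc)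
    · exact hes.preimage_mem_nhds (ball_mem_nhds _ (by positivity))
  set κ : ℝ := max 1 (max (C1 * K : ℝ) (K' * C2 : ℝ)) with hκ
  have hκ1 : 1 ≤ κ := le_max_left _ _
  have hκ2 : (C1 * K : ℝ) ≤ κ := (le_max_left _ _).trans (le_max_right _ _)
  have hκ3 : (K' * C2 : ℝ) ≤ κ := (le_max_right _ _).trans (le_max_right _ _)
  have hκ0 : 0 < κ := by linarith only [hκ1]
  refine ⟨κ, min (d / 2) (r3 / 2), hκ1, by positivity, ?_, ?_, ?_⟩
  · intro q hq
    refine (h4 (ball_subset_ball ?_ hq)).1.1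
    have := min_le_left (d / 2) (r3 / 2)
    linarith only [this]
  · intro a ha b hb
    have ha' : a ∈ ball p d := ball_subset_ball
      ((min_le_left (d / 2) (r3 / 2)).trans (by linarith only [hd])) ha
    have hb' : b ∈ ball p d := ball_subset_ball
      ((min_le_left (d / 2) (r3 / 2)).trans (by linarith)) hb
    obtain ⟨⟨hat, haU⟩, haT, has, -⟩ := h4 ha'
    obtain ⟨⟨hbt, hbU⟩, hbT, hbs, -⟩ := h4 hb'
    have h5 := hup _ haT _ hbT
    simp only [mem_preimage] at has hbs
    rw [c.left_inv has, c.left_inv hbs,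
      ← IsRiemannianManifold.out (I := 𝓡 2)] at h5
    have h6 : edist (c (e.symm a)) (c (e.symm b)) ≤ K * edist a b := hK haU hbU
    have h7 : edist (e.symm a) (e.symm b) ≤ C1 * (K * edist a b) := h5.trans (by gcongr)
    have h8 : dist (e.symm a) (e.symm b) ≤ C1 * (K * dist a b) := by
      rw [edist_dist, edist_dist a b] at h7
      rw [← ENNReal.ofReal_coe_nnreal, ← ENNReal.ofReal_coe_nnreal,
        ← ENNReal.ofReal_mul (by positivity), ← ENNReal.ofReal_mul (by positivity)] at h7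
      exact (ENNReal.ofReal_le_ofReal_iff (by positivity)).1 h7
    calc dist (e.symm a) (e.symm b) ≤ C1 * (K * dist a b) := h8
      _ = (C1 * K) * dist a b := by ring
      _ ≤ κ * dist a b := by gcongr
  · intro a ha s hs hsd y hy
    have ha' : a ∈ ball p d := ball_subset_ball
      ((min_le_left (d / 2) (r3 / 2)).trans (by linarith only [hd])) ha
    obtain ⟨⟨hat, haU⟩, haT, has, har⟩ := h4 ha'
    simp only [mem_preimage] at has har
    have hsκ : s / κ ≤ s := div_le_self hs.le hκ1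
    have hs3 : s ≤ r3 / 2 := hsd.trans (min_le_right _ _)
    have hz3 : e.symm a ∈ ball x r3 := ball_subset_ball (by linarith) har
    have hy3 : y ∈ ball x r3 := by
      rw [mem_ball] at hy har ⊢
      have := dist_triangle y (e.symm a) x
      linarith only [hy, har, hsκ, hs3, this]
    obtain ⟨hz4, hz5, hz6⟩ := h3 hz3
    obtain ⟨hy4, hy5, hy6⟩ := h3 hy3
    simp only [mem_preimage] at hz6 hy6
    have hyc : y ∈ c.source := hs2 hy4
    have h5 := hlo y hy4 _ hz4
    have h6 : edist (e (c.symm (c y))) (e (c.symm (c (e.symm a)))) ≤ K' * edist (c y) (c (e.symm a)) :=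
      hK' hy6 hz6
    rw [c.left_inv hyc, c.left_inv has, e.right_inv hat] at h6
    have h7 : edist (e y) a ≤ K' * (C2 * edist y (e.symm a)) := h6.trans (by gcongr)
    have h8 : dist (e y) a ≤ K' * (C2 * dist y (e.symm a)) := by
      rw [edist_dist, edist_dist y] at h7
      rw [← ENNReal.ofReal_coe_nnreal, ← ENNReal.ofReal_coe_nnreal,
        ← ENNReal.ofReal_mul (by positivity), ← ENNReal.ofReal_mul (by positivity)] at h7
      exact (ENNReal.ofReal_le_ofReal_iff (by positivity)).1 h7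
    refine ⟨e y, ?_, e.left_inv hy5⟩
    rw [mem_ball] at hy ⊢
    calc dist (e y) a ≤ K' * (C2 * dist y (e.symm a)) := h8
      _ = (K' * C2) * dist y (e.symm a) := by ring
      _ ≤ κ * dist y (e.symm a) := by gcongr
      _ < κ * (s / κ) := by gcongr
      _ = s := by field_simp

end Aux2

/-- Charts of the maximal atlas are locally bi-Lipschitz.

First part: the image of a segment in the chart, as in Mathlib's
`eventually_riemannianEDist_le_edist_extChartAt` (Mathlib/Geometry/Manifold/Riemannian/Basic.lean),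
with two points. Second part: a path of length less than `s / κ` starting at `e.symm a` stays in
`e.symm '' (ball a s)`, as in Mathlib's `setOfPred_riemannianEDist_lt_subset_nhds`. The bounds for
the differentials of `e` and `e.symm` near `p` come from the bounds for `extChartAt` given there and
the smooth change of coordinates. The constant `κ` is uniform in `a` near `p`. -/
theorem chart_bilip {e : OpenPartialHomeomorph M Plane}
    (he : e ∈ IsManifold.maximalAtlas (𝓡 2) ∞ M) {p : Plane} (hp : p ∈ e.target) :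
    ∃ κ δ : ℝ, 1 ≤ κ ∧ 0 < δ ∧ Metric.ball p (2 * δ) ⊆ e.target ∧
      (∀ a ∈ Metric.ball p δ, ∀ b ∈ Metric.ball p δ,
        dist (e.symm a) (e.symm b) ≤ κ * dist a b) ∧
      ∀ a ∈ Metric.ball p δ, ∀ s, 0 < s → s ≤ δ →
        Metric.ball (e.symm a) (s / κ) ⊆ e.symm '' Metric.ball a s := by
  exact chart_bilip_aux he hp

end

end Pool.Agent.H94.Geo
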