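import Pool.Agent.H94.Geo.Spread
import Pool.Agent.H94.Geo.Defs

set_option autoImplicit false

/-!
# The sum of the doubling indices over the discs centred in one chart
-/

open Metric Set
open Pool.Agent.H24.Near (Sol Smooth M M_le M_mono le_M exists_M M_nonneg)

noncomputable section

namespace Pool.Agent.H94.Geo

variable {X : Type*} [MetricSpace X] {P : ℝ → (X → ℝ) → Prop}

/-- The local theorem with the constant `R₀`. -/
def LocBR (R₀ : ℝ) : Prop :=
  ∀ (W C₁ K k : ℝ), 1 ≤ W → 1 ≤ C₁ → 1 ≤ K → 0 < k → k ≤ 1 →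
    ∃ C N₀ : ℝ, ∀ (N : ℝ) (q u : ℝ × ℝ → ℝ), N₀ ≤ N → 1 ≤ N →
      Sol q u ((W * N) ^ 2) (closedBall 0 R₀) →
      (∀ p ∈ closedBall (0 : ℝ × ℝ) R₀, |u p| ≤ 1) →
      (∀ y ∈ closedBall (0 : ℝ × ℝ) (R₀ / 2), Real.exp (-(C₁ * N)) ≤ M u y 1) →
      ∀ F : Finset (ℤ × ℤ),
        (∀ n ∈ F, ((n.1 / N, n.2 / N) : ℝ × ℝ) ∈ closedBall (0 : ℝ × ℝ) 2) →
        ∑ n ∈ F, (Real.log (M u (n.1 / N, n.2 / N) (K / N)) -
          Real.log (M u (n.1 / N, n.2 / N) (k / N))) ≤ C * N ^ 2

/-- The grid point nearest to `η`. -/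
def rnd (N : ℝ) (η : ℝ × ℝ) : ℤ × ℤ := (round (N * η.1), round (N * η.2))

lemma dist_rnd {N : ℝ} (hN : 0 < N) (η : ℝ × ℝ) :
    dist (((rnd N η).1 / N, (rnd N η).2 / N) : ℝ × ℝ) η ≤ 1 / (2 * N) := by
  have key : ∀ t : ℝ, dist ((round (N * t) : ℝ) / N) t ≤ 1 / (2 * N) := by
    intro t
    have h := abs_sub_round (N * t)
    rw [Real.dist_eq, abs_sub_comm, show t - (round (N * t) : ℝ) / N =
      (N * t - round (N * t)) / N by field_simp, abs_div, abs_of_pos hN,
      div_le_div_iff₀ hN (by positivity)]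
    nlinarith only [hN, h]
  rw [Prod.dist_eq]
  exact max_le (key _) (key _)

/-- The data of a normalised solution in a chart, at the scale `s`. -/
lemma chart_solution {x : X} (G : GoodChart P x) {s : ℝ} (hs : 0 < s) (hs1 : s ≤ 1)
    {N N' lam : ℝ} (hN : 1 ≤ N) (hNN : N ≤ N') (hlam : 0 < lam) (hle : lam ≤ N ^ 2) {φ : X → ℝ}
    (hP : P lam φ) {S : ℝ} (hS : 0 < S) (hφ : ∀ x, |φ x| ≤ S) :
    ∃ q u : ℝ × ℝ → ℝ, Sol q u ((G.W * N') ^ 2) (closedBall 0 (1 / s)) ∧
      (∀ p ∈ closedBall (0 : ℝ × ℝ) (1 / s), |u p| ≤ 1) ∧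
      ∀ b ∈ closedBall (0 : ℝ × ℝ) 9, S * |u (s⁻¹ • b)| = |φ (G.Φ b)| := by
  obtain ⟨q, u, hsol, hu⟩ := G.sol N hN lam hlam hle φ hP
  have hW := G.one_le_W
  have hsub : ∀ p ∈ closedBall (0 : ℝ × ℝ) (1 / s), 0 + s • p ∈ closedBall (0 : ℝ × ℝ) 9 := by
    intro p hp
    rw [mem_closedBall, dist_zero_right] at hp ⊢
    rw [zero_add, norm_smul, Real.norm_eq_abs, abs_of_pos hs]
    rw [le_div_iff₀ hs] at hp
    linarith only [hp]
  have h1 := (sol_const_mul hsol S⁻¹).scale 0 hs.le hs1 hsub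
  refine ⟨_, _, sol_mono h1 ?_ subset_rfl, ?_, ?_⟩
  · have h2 : s ^ 2 ≤ 1 := by nlinarith only [hs, hs1]
    have h3 : (G.W * N) ^ 2 ≤ (G.W * N') ^ 2 := by
      apply pow_le_pow_left₀ (mul_nonneg (by linarith) (by linarith))
      exact mul_le_mul_of_nonneg_left hNN (by linarith)
    nlinarith only [h2, h3]
  · intro p hp
    rw [hu _ (hsub p hp), abs_mul, abs_of_pos (inv_pos.2 hS), inv_mul_le_iff₀ hS, mul_one]
    exact hφ _
  · intro b hb
    rw [zero_add, smul_smul, mul_inv_cancel₀ hs.ne', one_smul, hu b hb, abs_mul,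
      abs_of_pos (inv_pos.2 hS), mul_inv_cancel_left₀ hS.ne']

lemma iSup_ball_le {φ : X → ℝ} {c : X} {r T : ℝ} (hT : 0 ≤ T)
    (h : ∀ y ∈ ball c r, |φ y| ≤ T) : (⨆ y : ball c r, |φ y|) ≤ T :=
  Real.iSup_le (fun y => h y y.2) hT

lemma le_iSup_ball {φ : X → ℝ} {S : ℝ} (hφ : ∀ x, |φ x| ≤ S) {c z : X} {r : ℝ}
    (hz : z ∈ ball c r) : |φ z| ≤ ⨆ y : ball c r, |φ y| :=
  le_ciSup (f := fun y : ball c r => |φ y|) ⟨S, by rintro _ ⟨y, rfl⟩; exact hφ _⟩ ⟨z, hz⟩

theorem chart_sum [CompactSpace X] [PreconnectedSpace X] (G : ∀ x, GoodChart P x) {R₀ : ℝ}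
    (hR₀ : 4 ≤ R₀) (hB : LocBR R₀) (x : X) {C : ℝ} (hC : 0 < C) :
    ∃ A N₁ : ℝ, 0 ≤ A ∧ 1 ≤ N₁ ∧ ∀ (N : ℝ) (φ : X → ℝ), N₁ ≤ N → P (N ^ 2) φ → ∀ S : ℝ, 0 < S →
      (∀ x, |φ x| ≤ S) → (∃ x, |φ x| = S) → ∀ (ι : Type) [Fintype ι] (c : ι → X) (L : ℝ),
      (∀ y, ({i | y ∈ ball (c i) (C / N)}.ncard : ℝ) ≤ L) → ∀ J : Finset ι,
      (∀ i ∈ J, c i ∈ ball x (R₀⁻¹ / (G x).κ)) →
      ∑ i ∈ J, doublingIndex φ (c i) (C / N) ≤ A * L * N ^ 2 := by
  classical
  set κ := (G x).κ with hκdef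
  have hκ : 1 ≤ κ := (G x).one_le_κ
  have hκ0 : 0 < κ := by linarith
  have hR0 : 0 < R₀ := by linarith
  set s : ℝ := R₀⁻¹ with hs
  have hs0 : 0 < s := inv_pos.2 hR0
  have hsR : s * R₀ = 1 := inv_mul_cancel₀ hR0.ne'
  have hs4 : s ≤ 1 / 4 := by
    rw [hs, inv_le_comm₀ hR0 (by norm_num)]
    linarith
  obtain ⟨Cg, hCg, hg⟩ := growth G (ρ := s / κ) (by positivity)
  set b₀ : ℝ := C * R₀ / (2 * κ) with hb₀
  have hb₀0 : 0 < b₀ := by positivity
  set a : ℝ := min 1 (b₀ / 2) with ha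
  have ha0 : 0 < a := lt_min one_pos (half_pos hb₀0)
  have ha1 : a ≤ 1 := min_le_left _ _
  have ha2 : a ≤ b₀ / 2 := min_le_right _ _
  set K : ℝ := (4 * κ ^ 2 * b₀ + a / 2) / a with hK
  have hK1 : 1 ≤ K := by
    rw [hK, le_div_iff₀ ha0]
    nlinarith only [hb₀0, ha0, ha2, mul_le_mul_of_nonneg_right (show (1 : ℝ) ≤ κ ^ 2 by nlinarith) hb₀0.le]
  obtain ⟨CB, NB, hLB⟩ := hB (G x).W Cg K 1 (G x).one_le_W hCg hK1 one_pos le_rfl
  refine ⟨|CB| / (a ^ 2 * Real.log 2), max 1 (max NB (2 * C * κ)), by positivity,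
    le_max_left _ _, ?_⟩
  intro N φ hN hP S hS hφ hmax ι _ c L hover J hJ
  have hN1 : 1 ≤ N := (le_max_left _ _).trans hN
  have hNB : NB ≤ N := ((le_max_left _ _).trans (le_max_right _ _)).trans hN
  have hNC : 2 * C * κ ≤ N := ((le_max_right _ _).trans (le_max_right _ _)).trans hN
  have hN0 : 0 < N := by linarith
  set N' : ℝ := N / a with hN'
  have hN'0 : 0 < N' := by positivity
  have hNN' : N ≤ N' := by
    rw [hN', le_div_iff₀ ha0]
    nlinarith only [ha1, hN1]
  have hN'inv : 1 / N' = a / N := by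
    rw [hN']
    field_simp
  have hK' : K / N' = (4 * κ ^ 2 * b₀ + a / 2) / N := by
    rw [hK, hN']
    field_simp
  obtain ⟨q, u, hsol, hu1, hval⟩ := chart_solution (G x) hs0 (by linarith only [hs4]) hN1 hNN'
    (lam := N ^ 2) (by positivity) le_rfl hP hS hφ
  have h1s : 1 / s = R₀ := by rw [hs, one_div, inv_inv]
  have hsinv : s⁻¹ = R₀ := by rw [hs, inv_inv]
  rw [h1s] at hsol hu1
  rw [hsinv] at hval
  have hucont := hsol.smooth_u.continuous
  -- points of the chart of the form `s • g`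
  have hval' : ∀ g : ℝ × ℝ, g ∈ closedBall (0 : ℝ × ℝ) (9 * R₀) →
      S * |u g| = |φ ((G x).Φ (s • g))| := by
    intro g hg
    rw [← hval (s • g)]
    · rw [smul_smul, mul_comm R₀ s, hsR, one_smul]
    · rw [mem_closedBall, dist_zero_right] at hg ⊢
      rw [norm_smul, Real.norm_eq_abs, abs_of_pos hs0]
      calc s * ‖g‖ ≤ s * (9 * R₀) := mul_le_mul_of_nonneg_left hg hs0.le
        _ = 9 * (s * R₀) := by ring
        _ = 9 := by rw [hsR, mul_one]
  have hdist : ∀ g g' : ℝ × ℝ, dist (s • g) (s • g') = s * dist g g' := by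
    intro g g'
    rw [dist_smul₀, Real.norm_eq_abs, abs_of_pos hs0]
  have hdistR : ∀ g g' : ℝ × ℝ, dist (R₀ • g) g' = R₀ * dist g (s • g') := by
    intro g g'
    have : g' = R₀ • (s • g') := by rw [smul_smul, mul_comm, hsR, one_smul]
    conv_lhs => rw [this]
    rw [dist_smul₀, Real.norm_eq_abs, abs_of_pos hR0]
  have hsRsmul : ∀ b : ℝ × ℝ, s • (R₀ • b) = b := by
    intro b
    rw [smul_smul, hsR, one_smul]
  -- growth
  have hgrow : ∀ y ∈ closedBall (0 : ℝ × ℝ) (R₀ / 2), Real.exp (-(Cg * N')) ≤ M u y 1 := by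
    intro y hy
    have hy' := mem_closedBall.1 hy
    have hsy : s • y ∈ closedBall (0 : ℝ × ℝ) 1 := by
      rw [mem_closedBall, ← smul_zero s, hdist]
      nlinarith only [hs0, hsR, hy']
    obtain ⟨z, hz, hz'⟩ := hg N (N ^ 2) φ S hN1 (by positivity) le_rfl hP hS hφ hmax
      ((G x).Φ (s • y))
    obtain ⟨b, hb, rfl⟩ := (G x).surj (s • y) hsy s hs0 (by linarith only [hs4]) hz
    have hb' := mem_closedBall.1 hb
    have hb9 : b ∈ closedBall (0 : ℝ × ℝ) 9 := by
      rw [mem_closedBall] at hsy ⊢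
      have := dist_triangle b (s • y) 0
      linarith only [hs4, hsy, hb', this]
    rw [← hval b hb9] at hz'
    have h3 : Real.exp (-(Cg * N)) ≤ |u (R₀ • b)| := by
      by_contra hcon
      have := not_le.1 hcon
      nlinarith only [hS, hz', hcon]
    have h4 : R₀ • b ∈ closedBall y 1 := by
      rw [mem_closedBall, hdistR]
      nlinarith only [hR₀, hsR, hb']
    refine le_trans (Real.exp_le_exp.2 ?_) (h3.trans (le_M hucont h4))
    nlinarith only [hCg, hNN']
  -- positivity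
  have hpos : ∀ g ∈ closedBall (0 : ℝ × ℝ) 2, 0 < M u g (1 / N') := by
    intro g hg2
    have hg2' := mem_closedBall.1 hg2
    have hsy : s • g ∈ closedBall (0 : ℝ × ℝ) 1 := by
      rw [mem_closedBall, ← smul_zero s, hdist]
      nlinarith only [hs0, hs4, hg2']
    have hsN : s / N' ≤ 1 := by
      rw [div_le_one hN'0]
      linarith only [hs4, hN1, hNN']
    obtain ⟨Cg', -, hg'⟩ := growth G (ρ := s / N' / κ) (by positivity)
    obtain ⟨z, hz, hz'⟩ := hg' N (N ^ 2) φ S hN1 (by positivity) le_rfl hP hS hφ hmax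
      ((G x).Φ (s • g))
    obtain ⟨b, hb, rfl⟩ := (G x).surj (s • g) hsy (s / N') (by positivity) hsN hz
    have hb' := mem_closedBall.1 hb
    have hb9 : b ∈ closedBall (0 : ℝ × ℝ) 9 := by
      rw [mem_closedBall] at hsy ⊢
      have := dist_triangle b (s • g) 0
      linarith only [hsy, hsN, hb', this]
    rw [← hval b hb9] at hz'
    have h3 : 0 < |u (R₀ • b)| := by
      by_contra hcon
      have h5 : |u (R₀ • b)| = 0 := le_antisymm (not_lt.1 hcon) (abs_nonneg _)
      rw [h5, mul_zero] at hz'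
      have := mul_pos (Real.exp_pos (-(Cg' * N))) hS
      linarith only [hz', this]
    have h4 : R₀ • b ∈ closedBall g (1 / N') := by
      rw [mem_closedBall, hdistR]
      calc R₀ * dist b (s • g) ≤ R₀ * (s / N') := mul_le_mul_of_nonneg_left hb' hR0.le
        _ = s * R₀ * (1 / N') := by ring
        _ = 1 / N' := by rw [hsR, one_mul]
    exact h3.trans_le (le_M hucont h4)
  -- the coordinates of the centres
  have hex : ∀ i, ∃ ξ : ℝ × ℝ, i ∈ J → ξ ∈ closedBall (0 : ℝ × ℝ) s ∧ (G x).Φ ξ = c i := by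
    intro i
    by_cases hi : i ∈ J
    · have h1 := hJ i hi
      have h2 := (G x).surj 0 (mem_closedBall_self zero_le_one) s hs0 (by linarith only [hs4])
      rw [(G x).center] at h2
      obtain ⟨ξ, hξ, hξ'⟩ := h2 h1
      exact ⟨ξ, fun _ => ⟨hξ, hξ'⟩⟩
    · exact ⟨0, fun h => absurd h hi⟩
  choose ξ hξ using hex
  set gr : ℤ × ℤ → ℝ × ℝ := fun n => (n.1 / N', n.2 / N') with hgr
  set nn : ι → ℤ × ℤ := fun i => rnd N' (R₀ • ξ i) with hnn
  have hnear : ∀ i, dist (gr (nn i)) (R₀ • ξ i) ≤ a / (2 * N) := by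
    intro i
    have h1 := dist_rnd hN'0 (R₀ • ξ i)
    rw [show 1 / (2 * N') = 1 / N' / 2 by ring, hN'inv, show a / N / 2 = a / (2 * N) by ring] at h1
    exact h1
  have haN : a / (2 * N) ≤ 1 / 2 := by
    rw [div_le_div_iff₀ (by positivity) (by norm_num)]
    nlinarith only [ha1, hN1]
  have hRξ : ∀ i ∈ J, dist (R₀ • ξ i) 0 ≤ 1 := by
    intro i hi
    have h1 := mem_closedBall.1 (hξ i hi).1
    rw [hdistR, smul_zero]
    nlinarith only [hR₀, hsR, h1]
  have hgr2 : ∀ i ∈ J, gr (nn i) ∈ closedBall (0 : ℝ × ℝ) 2 := by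
    intro i hi
    rw [mem_closedBall]
    have h1 := dist_triangle (gr (nn i)) (R₀ • ξ i) 0
    have h2 := hnear i
    have h3 := hRξ i hi
    linarith only [haN, h1, h2, h3]
  have hCN : C / N ≤ 1 / (2 * κ) := by
    rw [div_le_div_iff₀ hN0 (by positivity)]
    linarith only [hNC]
  have hb₀s : b₀ * s = C / (2 * κ) := by
    rw [hb₀, show C * R₀ / (2 * κ) * s = C / (2 * κ) * (s * R₀) by ring, hsR, mul_one]
  have hκinv : 1 / (2 * κ) ≤ 1 / 2 := by
    apply one_div_le_one_div_of_le (by norm_num)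
    linarith only [hκ]
  -- the lower bound for the small disc
  have hlow : ∀ i ∈ J, S * M u (gr (nn i)) (1 / N') ≤ ⨆ y : ball (c i) (C / N), |φ y| := by
    intro i hi
    obtain ⟨β, hβ, hβM⟩ := exists_M hucont (z := gr (nn i)) (r := 1 / N') (by positivity)
    have hβ' := mem_closedBall.1 hβ
    rw [hN'inv] at hβ'
    have h1 : dist β (R₀ • ξ i) ≤ 3 * (b₀ / 4) / N := by
      have h2 := dist_triangle β (gr (nn i)) (R₀ • ξ i)
      have h3 := hnear i
      have h4 : a / N + a / (2 * N) = 3 * (a / 2) / N := by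
        field_simp
        ring
      have h5 : 3 * (a / 2) / N ≤ 3 * (b₀ / 4) / N := by
        apply div_le_div_of_nonneg_right _ hN0.le
        linarith only [ha2]
      linarith only [hβ', h2, h3, h4, h5]
    have h6 : dist (s • β) (ξ i) ≤ 3 / 4 * (1 / (2 * κ)) * (C / N) := by
      have h7 : dist (s • β) (ξ i) = s * dist β (R₀ • ξ i) := by
        rw [← hdist, hsRsmul]
      rw [h7]
      calc s * dist β (R₀ • ξ i) ≤ s * (3 * (b₀ / 4) / N) :=
            mul_le_mul_of_nonneg_left h1 hs0.le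
        _ = 3 / 4 * (b₀ * s) / N := by ring
        _ = 3 / 4 * (C / (2 * κ)) / N := by rw [hb₀s]
        _ = 3 / 4 * (1 / (2 * κ)) * (C / N) := by ring
    have hCN0 : 0 < C / N := by positivity
    have hξ9 := mem_closedBall.1 (hξ i hi).1
    have h8 : dist (s • β) (ξ i) ≤ 1 := by
      refine h6.trans ?_
      have h9 : 0 ≤ 1 / (2 * κ) := by positivity
      nlinarith only [hCN, hκinv, hCN0]
    have hsβ : s • β ∈ closedBall (0 : ℝ × ℝ) 9 := by
      rw [mem_closedBall]
      have := dist_triangle (s • β) (ξ i) 0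
      linarith only [hs4, hξ9, h8, this]
    have hmem : (G x).Φ (s • β) ∈ ball (c i) (C / N) := by
      rw [mem_ball, ← (hξ i hi).2]
      have h10 := (G x).lip (s • β) hsβ (ξ i) (mem_closedBall.2 (by linarith only [hs4, hξ9]))
      rw [← hκdef] at h10
      calc dist ((G x).Φ (s • β)) ((G x).Φ (ξ i)) ≤ κ * dist (s • β) (ξ i) := h10
        _ ≤ κ * (3 / 4 * (1 / (2 * κ)) * (C / N)) := mul_le_mul_of_nonneg_left h6 hκ0.le
        _ = 3 / 8 * (C / N) := by
          field_simp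
          ring
        _ < C / N := by linarith only [hCN0]
    have h11 := le_iSup_ball hφ hmem
    have h12 : S * |u β| = |φ ((G x).Φ (s • β))| := by
      have := hval (s • β) hsβ
      rwa [smul_smul, mul_comm R₀ s, hsR, one_smul] at this
    rw [← hβM, h12]
    exact h11
  -- the upper bound for the large disc
  have hupp : ∀ i ∈ J, (⨆ y : ball (c i) (2 * (C / N)), |φ y|) ≤
      S * M u (gr (nn i)) (K / N') := by
    intro i hi
    apply iSup_ball_le (mul_nonneg hS.le M_nonneg)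
    intro y hy
    have hξ9 := mem_closedBall.1 (hξ i hi).1
    rw [← (hξ i hi).2] at hy
    have hrad : 2 * (C / N) = 2 * C * κ / N / κ := by
      field_simp
    rw [hrad] at hy
    obtain ⟨b, hb, rfl⟩ := (G x).surj (ξ i) (mem_closedBall.2 (by linarith only [hs4, hξ9])) (2 * C * κ / N)
      (by positivity) (by rw [div_le_one hN0]; exact hNC) hy
    have hb' := mem_closedBall.1 hb
    have hle1 : 2 * C * κ / N ≤ 1 := by
      rw [div_le_one hN0]
      exact hNC
    have hb9 : b ∈ closedBall (0 : ℝ × ℝ) 9 := by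
      rw [mem_closedBall]
      have := dist_triangle b (ξ i) 0
      linarith only [hs4, hξ9, hb', hle1, this]
    rw [← hval b hb9]
    apply mul_le_mul_of_nonneg_left _ hS.le
    apply le_M hucont
    rw [mem_closedBall, hK']
    have h1 : dist (R₀ • b) (R₀ • ξ i) = R₀ * dist b (ξ i) := by
      rw [dist_smul₀, Real.norm_eq_abs, abs_of_pos hR0]
    have h2 := dist_triangle_right (R₀ • b) (gr (nn i)) (R₀ • ξ i)
    have h3 := hnear i
    have h4 : R₀ * dist b (ξ i) ≤ R₀ * (2 * C * κ / N) := mul_le_mul_of_nonneg_left hb' hR0.le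
    have h5 : R₀ * (2 * C * κ / N) = 4 * κ ^ 2 * b₀ / N := by
      rw [hb₀]
      field_simp
      ring
    have h6 : (4 * κ ^ 2 * b₀ + a / 2) / N = 4 * κ ^ 2 * b₀ / N + a / (2 * N) := by
      field_simp
    linarith only [h1, h2, h3, h4, h5, h6]
  set T : ℤ × ℤ → ℝ := fun n => Real.log (M u (gr n) (K / N')) -
    Real.log (M u (gr n) (1 / N')) with hT
  have hmono : ∀ g : ℝ × ℝ, M u g (1 / N') ≤ M u g (K / N') := fun g =>
    M_mono hucont (by positivity) (closedBall_subset_closedBall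
      (div_le_div_of_nonneg_right hK1 hN'0.le))
  have hTnn : ∀ i ∈ J, 0 ≤ T (nn i) := by
    intro i hi
    rw [hT]
    have := Real.log_le_log (hpos _ (hgr2 i hi)) (hmono (gr (nn i)))
    simp only
    linarith only [this]
  have hlog2 : 0 < Real.log 2 := Real.log_pos (by norm_num)
  have hterm : ∀ i ∈ J, doublingIndex φ (c i) (C / N) ≤ T (nn i) / Real.log 2 := by
    intro i hi
    have h1 := hlow i hi
    have h2 := hupp i hi
    have h3 := hpos _ (hgr2 i hi)
    have h4 := hmono (gr (nn i))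
    have h5 : 0 < S * M u (gr (nn i)) (1 / N') := mul_pos hS h3
    unfold doublingIndex
    rw [Real.logb]
    apply div_le_div_of_nonneg_right _ hlog2.le
    have h6 : 0 < ⨆ y : ball (c i) (C / N), |φ y| := h5.trans_le h1
    have h7 : (⨆ y : ball (c i) (C / N), |φ y|) ≤ ⨆ y : ball (c i) (2 * (C / N)), |φ y| := by
      apply iSup_ball_le
      · exact Real.iSup_nonneg fun _ => abs_nonneg _
      · intro y hy
        exact le_iSup_ball hφ (ball_subset_ball (by
          have : 0 < C / N := by positivity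
          linarith only [this]) hy)
    rw [Real.log_div (h6.trans_le h7).ne' h6.ne']
    have h8 : Real.log (⨆ y : ball (c i) (2 * (C / N)), |φ y|) ≤
        Real.log S + Real.log (M u (gr (nn i)) (K / N')) := by
      rw [← Real.log_mul hS.ne' (h3.trans_le h4).ne']
      exact Real.log_le_log (h6.trans_le h7) h2
    have h9 : Real.log S + Real.log (M u (gr (nn i)) (1 / N')) ≤
        Real.log (⨆ y : ball (c i) (C / N), |φ y|) := by
      rw [← Real.log_mul hS.ne' h3.ne']
      exact Real.log_le_log h5 h1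
    rw [hT]
    simp only
    linarith only [h8, h9]
  -- the number of centres near a grid point
  have hcard : ∀ n ∈ J.image nn, (((J.filter fun i => nn i = n).card : ℕ) : ℝ) ≤ L := by
    intro n hn
    obtain ⟨i₀, hi₀, hi₀n⟩ := Finset.mem_image.1 hn
    refine le_trans ?_ (hover ((G x).Φ (s • gr n)))
    rw [Nat.cast_le, ← Set.ncard_coe_finset]
    apply Set.ncard_le_ncard _ (Set.toFinite _)
    intro i hi
    rw [Finset.mem_coe, Finset.mem_filter] at hi
    obtain ⟨hi, hin⟩ := hi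
    have hξ9 := mem_closedBall.1 (hξ i hi).1
    rw [Set.mem_ofPred_eq, mem_ball, ← (hξ i hi).2]
    have h1 := hnear i
    rw [hin] at h1
    have h2 : dist (s • gr n) (ξ i) = s * dist (gr n) (R₀ • ξ i) := by
      rw [← hdist, hsRsmul]
    have h3 : s * dist (gr n) (R₀ • ξ i) ≤ 1 / 4 * (1 / (2 * κ)) * (C / N) := by
      calc s * dist (gr n) (R₀ • ξ i) ≤ s * (a / (2 * N)) :=
            mul_le_mul_of_nonneg_left h1 hs0.le
        _ ≤ s * (b₀ / 2 / (2 * N)) := by
            apply mul_le_mul_of_nonneg_left _ hs0.le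
            exact div_le_div_of_nonneg_right ha2 (by positivity)
        _ = 1 / 4 * (b₀ * s) / N := by ring
        _ = 1 / 4 * (C / (2 * κ)) / N := by rw [hb₀s]
        _ = 1 / 4 * (1 / (2 * κ)) * (C / N) := by ring
    have hCN0 : 0 < C / N := by positivity
    have hgn9 : s • gr n ∈ closedBall (0 : ℝ × ℝ) 9 := by
      have h4 := hgr2 i₀ hi₀
      rw [hi₀n, mem_closedBall] at h4
      rw [mem_closedBall, ← smul_zero s, hdist]
      nlinarith only [hs0, hs4, h4]
    have h5 := (G x).lip (s • gr n) hgn9 (ξ i) (mem_closedBall.2 (by linarith only [hs4, hξ9]))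
    rw [← hκdef, h2] at h5
    calc dist ((G x).Φ (s • gr n)) ((G x).Φ (ξ i)) ≤ κ * (s * dist (gr n) (R₀ • ξ i)) := h5
      _ ≤ κ * (1 / 4 * (1 / (2 * κ)) * (C / N)) := mul_le_mul_of_nonneg_left h3 hκ0.le
      _ = 1 / 8 * (C / N) := by
        field_simp
        ring
      _ < C / N := by linarith only [hCN0]
  have hL : 0 ≤ L := le_trans (Nat.cast_nonneg _) (hover x)
  have hsum := hLB N' q u (hNB.trans hNN') (hN1.trans hNN') hsol hu1 hgrow (J.image nn) (by
    intro n hn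
    obtain ⟨i, hi, rfl⟩ := Finset.mem_image.1 hn
    exact hgr2 i hi)
  have hN'2 : N' ^ 2 = N ^ 2 / a ^ 2 := by rw [hN', div_pow]
  calc ∑ i ∈ J, doublingIndex φ (c i) (C / N) ≤ ∑ i ∈ J, T (nn i) / Real.log 2 :=
        Finset.sum_le_sum hterm
    _ = ∑ n ∈ J.image nn, ((J.filter fun i => nn i = n).card : ℝ) * (T n / Real.log 2) := by
        rw [← Finset.sum_fiberwise_of_maps_to (g := nn) (t := J.image nn)
          (fun i hi => Finset.mem_image_of_mem nn hi)]
        apply Finset.sum_congr rfl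
        intro n _
        rw [Finset.sum_congr rfl (g := fun _ => T n / Real.log 2) (by
          intro i hi
          rw [(Finset.mem_filter.1 hi).2]), Finset.sum_const, nsmul_eq_mul]
    _ ≤ ∑ n ∈ J.image nn, L * (T n / Real.log 2) := by
        apply Finset.sum_le_sum
        intro n hn
        have h1 := hcard n hn
        obtain ⟨i, hi, rfl⟩ := Finset.mem_image.1 hn
        exact mul_le_mul_of_nonneg_right h1 (div_nonneg (hTnn i hi) hlog2.le)
    _ = L / Real.log 2 * ∑ n ∈ J.image nn, T n := by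
        rw [Finset.mul_sum]
        apply Finset.sum_congr rfl
        intro n _
        ring
    _ ≤ L / Real.log 2 * (|CB| * N' ^ 2) := by
        apply mul_le_mul_of_nonneg_left _ (by positivity)
        refine le_trans hsum ?_
        exact mul_le_mul_of_nonneg_right (le_abs_self _) (sq_nonneg _)
    _ = |CB| / (a ^ 2 * Real.log 2) * L * N ^ 2 := by
        rw [hN'2]
        field_simp

end Pool.Agent.H94.Geo
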