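import Pool.Agent.H94.Geo.Defs

set_option autoImplicit false

/-!
# The coefficients of the metric in smooth charts
-/

open Manifold Bundle
open scoped ContDiff Topology

noncomputable section

namespace Pool.Agent.H94.Geo

section

variable {M : Type*} [MetricSpace M] [ChartedSpace Plane M] [IsManifold (𝓡 2) ∞ M]
  [RiemannianBundle (fun x : M => TangentSpace (𝓡 2) x)]

omit [IsManifold (𝓡 2) ∞ M] in
/-- The definition of the coefficients. -/
theorem coef_apply (e : OpenPartialHomeomorph M Plane) (p : Plane) (i j : Fin 2) :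
    coef e p i j =
      inner ℝ (mfderiv (𝓡 2) (𝓡 2) e.symm p (ev i)) (mfderiv (𝓡 2) (𝓡 2) e.symm p (ev j)) :=
  rfl

/-- Coordinates of a vector of the plane. -/
theorem eq_smul_ev (v : Plane) : v = v 0 • ev 0 + v 1 • ev 1 := by
  ext k
  fin_cases k <;> simp [ev]

/-- The coefficients are symmetric. (`real_inner_comm`.) -/
theorem coef_symm (e : OpenPartialHomeomorph M Plane) (p : Plane) (i j : Fin 2) :
    coef e p i j = coef e p j i := by
  rw [coef_apply, coef_apply]
  exact real_inner_comm _ _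

/-- The coefficients compute the inner products of all vectors.

Write `v = v 0 • ev 0 + v 1 • ev 1` and use bilinearity. -/
theorem inner_mfderiv_symm (e : OpenPartialHomeomorph M Plane) (p : Plane) (v w : Plane) :
    inner ℝ (mfderiv (𝓡 2) (𝓡 2) e.symm p v) (mfderiv (𝓡 2) (𝓡 2) e.symm p w) =
      coef e p 0 0 * (v 0 * w 0) + coef e p 0 1 * (v 0 * w 1 + v 1 * w 0) +
        coef e p 1 1 * (v 1 * w 1) := by
  have hv : mfderiv (𝓡 2) (𝓡 2) e.symm p v =
      v 0 • mfderiv (𝓡 2) (𝓡 2) e.symm p (ev 0) + v 1 • mfderiv (𝓡 2) (𝓡 2) e.symm p (ev 1) := by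
    conv_lhs => rw [eq_smul_ev v]
    erw [map_add, map_smul, map_smul]
  have hw : mfderiv (𝓡 2) (𝓡 2) e.symm p w =
      w 0 • mfderiv (𝓡 2) (𝓡 2) e.symm p (ev 0) + w 1 • mfderiv (𝓡 2) (𝓡 2) e.symm p (ev 1) := by
    conv_lhs => rw [eq_smul_ev w]
    erw [map_add, map_smul, map_smul]
  have h01 : coef e p 0 1 = coef e p 1 0 := coef_symm e p 0 1
  rw [hv, hw]
  simp only [inner_add_left, inner_add_right, real_inner_smul_left, real_inner_smul_right,
    ← coef_apply]
  rw [← h01]
  ring

/-- The metric is positive definite.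

`mfderiv e.symm p` is injective (it is invertible, since `e` is a chart of the maximal atlas:
`e ∘ e.symm = id` near `p`); Cauchy-Schwarz is strict for linearly independent vectors. -/
theorem coef_pos {e : OpenPartialHomeomorph M Plane}
    (he : e ∈ IsManifold.maximalAtlas (𝓡 2) ∞ M) {p : Plane} (hp : p ∈ e.target) :
    0 < coef e p 0 0 ∧ coef e p 0 1 ^ 2 < coef e p 0 0 * coef e p 1 1 := by
  have he1 : e ∈ IsManifold.maximalAtlas (𝓡 2) 1 M :=
    IsManifold.maximalAtlas_subset_of_le (by simp) he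
  have hinj : ∀ v : Plane, mfderiv (𝓡 2) (𝓡 2) e.symm p v = 0 → v = 0 := by
    intro v hv
    have hcomp : (mfderiv (𝓡 2) (𝓡 2) e (e.symm p)).comp (mfderiv (𝓡 2) (𝓡 2) e.symm p) =
        mfderiv (𝓡 2) (𝓡 2) (e ∘ e.symm) p :=
      (mfderiv_comp p (mdifferentiableAt_of_mem_maximalAtlas he1 (e.map_target hp))
        (mdifferentiableAt_symm_of_mem_maximalAtlas he1 hp)).symm
    have hid : mfderiv (𝓡 2) (𝓡 2) (e ∘ e.symm) p = mfderiv (𝓡 2) (𝓡 2) (id : Plane → Plane) p := by
      apply Filter.EventuallyEq.mfderiv_eq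
      filter_upwards [e.open_target.mem_nhds hp] with q hq
      simp [hq]
    rw [hid, mfderiv_id] at hcomp
    have h := congrArg (fun L => L v) hcomp
    have h2 : mfderiv (𝓡 2) (𝓡 2) e (e.symm p) (mfderiv (𝓡 2) (𝓡 2) e.symm p v) = v := h
    rw [hv] at h2
    rw [← h2]
    exact map_zero (mfderiv (𝓡 2) (𝓡 2) e (e.symm p))
  have hpos : ∀ v : Plane, v ≠ 0 →
      0 < coef e p 0 0 * (v 0 * v 0) + coef e p 0 1 * (v 0 * v 1 + v 1 * v 0) +
        coef e p 1 1 * (v 1 * v 1) := by
    intro v hv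
    rw [← inner_mfderiv_symm]
    refine real_inner_self_pos.2 fun h => hv (hinj v h)
  have h00 : 0 < coef e p 0 0 := by
    have h := hpos (ev 0) (by
      intro h
      have := congrArg (fun v : Plane => v 0) h
      simp [ev] at this)
    simpa [ev] using h
  refine ⟨h00, ?_⟩
  -- the vector `(g₀₁, -g₀₀)`
  have h := hpos (coef e p 0 1 • ev 0 - coef e p 0 0 • ev 1) (by
    intro h
    have := congrArg (fun v : Plane => v 1) h
    simp [ev] at this
    exact h00.ne' this)
  have h0 : (coef e p 0 1 • ev 0 - coef e p 0 0 • ev 1 : Plane) 0 = coef e p 0 1 := by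
    simp [ev]
  have h1 : (coef e p 0 1 • ev 0 - coef e p 0 0 • ev 1 : Plane) 1 = -coef e p 0 0 := by
    simp [ev]
  rw [h0, h1] at h
  have h2 : coef e p 0 0 * (coef e p 0 1 * coef e p 0 1) +
      coef e p 0 1 * (coef e p 0 1 * -coef e p 0 0 + -coef e p 0 0 * coef e p 0 1) +
      coef e p 1 1 * (-coef e p 0 0 * -coef e p 0 0) =
      coef e p 0 0 * (coef e p 0 0 * coef e p 1 1 - coef e p 0 1 ^ 2) := by ring
  rw [h2] at h
  have h3 := (mul_pos_iff_of_pos_left h00).1 h
  linarith

/-- The coefficients are smooth.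

Use `ContMDiffOn.inner_bundle` for the vector fields `x ↦ mfderiv e.symm (e x) (ev i)` on
`e.source` (smooth sections of the tangent bundle: see `contMDiffOn_symm_of_mem_maximalAtlas`,
`ContMDiffOn.contMDiffOn_tangentMapWithin`, or the trivialization of the tangent bundle), composed
with `e.symm`; alternatively work along `e.symm` directly. -/
theorem contDiffOn_coef
    [IsContMDiffRiemannianBundle (𝓡 2) ∞ Plane (fun x : M => TangentSpace (𝓡 2) x)]
    {e : OpenPartialHomeomorph M Plane} (he : e ∈ IsManifold.maximalAtlas (𝓡 2) ∞ M)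
    (i j : Fin 2) : ContDiffOn ℝ ∞ (fun p => coef e p i j) e.target := by
  have hsymm : ContMDiffOn (𝓡 2) (𝓡 2) ∞ e.symm e.target :=
    contMDiffOn_symm_of_mem_maximalAtlas he
  have hV : ∀ k : Fin 2, ContMDiffOn (𝓡 2) ((𝓡 2).prod 𝓘(ℝ, Plane)) ∞
      (fun p => (⟨e.symm p, mfderiv (𝓡 2) (𝓡 2) e.symm p (ev k)⟩ :
        TotalSpace Plane (fun x : M => TangentSpace (𝓡 2) x))) e.target := by
    intro k
    have h1 : ContMDiffOn (𝓡 2) (𝓡 2).tangent ∞
        (fun p : Plane => (⟨p, ev k⟩ : TangentBundle (𝓡 2) Plane)) e.target :=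
      contMDiffOn_vectorSpace_iff_contDiffOn.2 contDiffOn_const
    have hu : UniqueMDiffOn (𝓡 2) e.target := e.open_target.uniqueMDiffOn
    have h2 := hsymm.contMDiffOn_tangentMapWithin (m := ∞) (by simp) hu
    have h3 := h2.comp h1 (fun p hp => by exact hp)
    refine h3.congr fun p hp => ?_
    simp only [Function.comp_apply, tangentMapWithin]
    rw [mfderivWithin_of_isOpen e.open_target hp]
  have h := ContMDiffOn.inner_bundle (IB := 𝓡 2) (F := Plane) (hV i) (hV j)
  exact contMDiffOn_iff_contDiffOn.1 h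

end

end Pool.Agent.H94.Geo
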