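import Pool.Agent.H94.Geo.Defs

set_option autoImplicit false
set_option linter.unusedSectionVars false

/-!
# Change of coordinates
-/

open Manifold Bundle
open scoped ContDiff Topology

noncomputable section

namespace Pool.Agent.H94.Geo

section

variable {M : Type*} [MetricSpace M] [ChartedSpace Plane M] [IsManifold (𝓡 2) ∞ M]

/-- A smooth change of coordinates gives a chart of the maximal atlas. -/
theorem trans_mem_maximalAtlas {e : OpenPartialHomeomorph M Plane}
    (he : e ∈ IsManifold.maximalAtlas (𝓡 2) ∞ M) {f : OpenPartialHomeomorph Plane Plane}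
    (hf : ContDiffOn ℝ ∞ f f.source) (hf' : ContDiffOn ℝ ∞ f.symm f.target) :
    e.trans f ∈ IsManifold.maximalAtlas (𝓡 2) ∞ M := by
  have hfG : f ∈ contDiffGroupoid ∞ (𝓡 2) := by
    rw [contDiffGroupoid, mem_groupoid_of_pregroupoid]
    simp only [contDiffPregroupoid]
    constructor
    · simpa using hf
    · simpa using hf'
  have he' : e ∈ (contDiffGroupoid ∞ (𝓡 2)).maximalAtlas M := he
  rw [mem_maximalAtlas_iff] at he'
  change e.trans f ∈ (contDiffGroupoid ∞ (𝓡 2)).maximalAtlas M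
  rw [mem_maximalAtlas_iff]
  intro e' h'
  obtain ⟨h1, h2⟩ := he' e' h'
  constructor
  · rw [OpenPartialHomeomorph.trans_symm_eq_symm_trans_symm, OpenPartialHomeomorph.trans_assoc]
    exact (contDiffGroupoid ∞ (𝓡 2)).trans ((contDiffGroupoid ∞ (𝓡 2)).symm hfG) h1
  · rw [← OpenPartialHomeomorph.trans_assoc]
    exact (contDiffGroupoid ∞ (𝓡 2)).trans h2 hfG

/-- The differential of the inverse of the new chart: `(e.trans f).symm = e.symm ∘ f.symm` and
`D(f.symm)(f q) ∘ Df(q) = id`. -/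
theorem mfderiv_trans_symm {e : OpenPartialHomeomorph M Plane}
    (he : e ∈ IsManifold.maximalAtlas (𝓡 2) ∞ M) {f : OpenPartialHomeomorph Plane Plane}
    (hf : ContDiffOn ℝ ∞ f f.source) (hf' : ContDiffOn ℝ ∞ f.symm f.target)
    {q : Plane} (hq : q ∈ f.source) (hq' : q ∈ e.target) (v : Plane) :
    mfderiv (𝓡 2) (𝓡 2) (e.trans f).symm (f q) (fderiv ℝ f q v) =
      mfderiv (𝓡 2) (𝓡 2) e.symm q v := by
  have hmem := trans_mem_maximalAtlas he hf hf'
  have hfq : f q ∈ (e.trans f).target := by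
    rw [OpenPartialHomeomorph.trans_target]
    refine ⟨f.map_source hq, ?_⟩
    simp only [Set.mem_preimage, f.left_inv hq]
    exact hq'
  have h1 : ContMDiffAt (𝓡 2) (𝓡 2) ∞ (e.trans f).symm (f q) :=
    (contMDiffOn_symm_of_mem_maximalAtlas hmem).contMDiffAt
      ((e.trans f).open_target.mem_nhds hfq)
  have h1' : MDifferentiableAt (𝓡 2) (𝓡 2) (e.trans f).symm (f q) :=
    h1.mdifferentiableAt (by simp)
  have h2 : DifferentiableAt ℝ f q :=
    (hf.contDiffAt (f.open_source.mem_nhds hq)).differentiableAt (by simp)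
  have h3 : (fun y => (e.trans f).symm (f y)) =ᶠ[𝓝 q] e.symm := by
    filter_upwards [f.open_source.mem_nhds hq] with y hy
    simp [f.left_inv hy]
  have h4 : mfderiv (𝓡 2) (𝓡 2) ((e.trans f).symm ∘ f) q =
      (mfderiv (𝓡 2) (𝓡 2) (e.trans f).symm (f q)).comp (mfderiv (𝓡 2) (𝓡 2) f q) :=
    mfderiv_comp q h1' h2.mdifferentiableAt
  have h5 : mfderiv (𝓡 2) (𝓡 2) ((e.trans f).symm ∘ f) q = mfderiv (𝓡 2) (𝓡 2) e.symm q :=
    h3.mfderiv_eq
  have h6 : mfderiv (𝓡 2) (𝓡 2) f q = fderiv ℝ f q := mfderiv_eq_fderiv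
  rw [← h5, h4, h6]
  rfl

end

end Pool.Agent.H94.Geo
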