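import Pool.Agent.H94.Geo.Planar
import Pool.Agent.H94.Geo.Coef
import Pool.Agent.H94.Geo.Trans

set_option autoImplicit false

/-!
# Isothermal charts on a Riemannian surface
-/

open Manifold Bundle
open scoped ContDiff Topology

noncomputable section

namespace Pool.Agent.H94.Geo

section

variable {M : Type*} [MetricSpace M] [ChartedSpace Plane M] [IsManifold (𝓡 2) ∞ M]
  [RiemannianBundle (fun x : M => TangentSpace (𝓡 2) x)]
  [IsContMDiffRiemannianBundle (𝓡 2) ∞ Plane (fun x : M => TangentSpace (𝓡 2) x)]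

/-- Every point of a smooth Riemannian surface lies in an isothermal chart. -/
theorem exists_isothermal (x : M) :
    ∃ e ∈ IsManifold.maximalAtlas (𝓡 2) ∞ M, x ∈ e.source ∧ ∃ w : Plane → ℝ,
      ContDiffOn ℝ ∞ w e.target ∧
      ∀ p ∈ e.target, 0 < w p ∧ coef e p = w p • (1 : Matrix (Fin 2) (Fin 2) ℝ) := by
  set e₀ : OpenPartialHomeomorph M Plane := chartAt Plane x with he₀def
  have he₀ : e₀ ∈ IsManifold.maximalAtlas (𝓡 2) ∞ M := IsManifold.chart_mem_maximalAtlas x
  have hx₀ : x ∈ e₀.source := mem_chart_source Plane x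
  obtain ⟨f, ρ, hp, hsub, hf, hf', hρ, hcon⟩ := planar_isothermal e₀.open_target
    (contDiffOn_coef he₀ 0 0) (contDiffOn_coef he₀ 0 1) (contDiffOn_coef he₀ 1 1)
    (fun q hq => coef_pos he₀ hq) (e₀.map_source hx₀)
  have hsrc : x ∈ (e₀.trans f).source := by
    rw [OpenPartialHomeomorph.trans_source]
    exact ⟨hx₀, hp⟩
  have htgt : ∀ p ∈ (e₀.trans f).target, p ∈ f.target ∧ f.symm p ∈ e₀.target := by
    intro p hp
    rw [OpenPartialHomeomorph.trans_target] at hp
    exact hp
  refine ⟨e₀.trans f, trans_mem_maximalAtlas he₀ hf hf', hsrc, fun p => ρ (f.symm p), ?_, ?_⟩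
  · apply hρ.comp (hf'.mono fun p hp => (htgt p hp).1)
    intro p hp
    exact f.map_target (htgt p hp).1
  · intro p hp
    obtain ⟨hp1, hp2⟩ := htgt p hp
    set q := f.symm p with hq
    have hqs : q ∈ f.source := f.map_target hp1
    have hfq : f q = p := f.right_inv hp1
    obtain ⟨hρq, hform⟩ := hcon q hqs
    refine ⟨hρq, ?_⟩
    -- preimages of the coordinate vectors
    have hD : ∀ v : Plane, fderiv ℝ f q (fderiv ℝ f.symm p v) = v := by
      intro v
      have h1 : HasFDerivAt f.symm (fderiv ℝ f.symm p) p :=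
        ((hf'.contDiffAt (f.open_target.mem_nhds hp1)).differentiableAt
          (by simp)).hasFDerivAt
      have h2 : HasFDerivAt f (fderiv ℝ f q) (f.symm p) :=
        ((hf.contDiffAt (f.open_source.mem_nhds hqs)).differentiableAt (by simp)).hasFDerivAt
      have h3 := h2.comp p h1
      have h4 : HasFDerivAt (f ∘ f.symm) (ContinuousLinearMap.id ℝ Plane) p := by
        apply (hasFDerivAt_id p).congr_of_eventuallyEq
        filter_upwards [f.open_target.mem_nhds hp1] with y hy
        exact f.right_inv hy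
      have h5 := h3.unique h4
      have h6 := congrArg (fun L : Plane →L[ℝ] Plane => L v) h5
      exact h6
    have key : ∀ i j : Fin 2, coef (e₀.trans f) p i j = ρ q * inner ℝ (ev i) (ev j) := by
      intro i j
      have h1 := mfderiv_trans_symm he₀ hf hf' hqs hp2 (fderiv ℝ f.symm p (ev i))
      have h2 := mfderiv_trans_symm he₀ hf hf' hqs hp2 (fderiv ℝ f.symm p (ev j))
      rw [hD, hfq] at h1 h2
      have h3 := inner_mfderiv_symm e₀ q (fderiv ℝ f.symm p (ev i)) (fderiv ℝ f.symm p (ev j))
      rw [hform, hD, hD] at h3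
      rw [← h3]
      have h4 : e₀.symm q = (e₀.trans f).symm p := rfl
      change inner ℝ (mfderiv (𝓡 2) (𝓡 2) (e₀.trans f).symm p (ev i))
        (mfderiv (𝓡 2) (𝓡 2) (e₀.trans f).symm p (ev j)) = _
      rw [h1, h2]
      rfl
    ext i j
    rw [key]
    fin_cases i <;> fin_cases j <;> simp [ev, EuclideanSpace.inner_single_left, hq]

end

end Pool.Agent.H94.Geo
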