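import Pool.Agent.H97.Iso.Planar

set_option autoImplicit false

/-!
# Isothermal coordinates in the plane
-/

open Manifold Bundle
open scoped ContDiff Topology

noncomputable section

namespace Pool.Agent.H94.Geo

/-- Local isothermal coordinates for the smooth metric `E dx² + 2 F dx dy + H dy²` on an open set
of the plane. -/
theorem planar_isothermal {U : Set Plane} (hU : IsOpen U) {E F H : Plane → ℝ}
    (hE : ContDiffOn ℝ ∞ E U) (hF : ContDiffOn ℝ ∞ F U) (hH : ContDiffOn ℝ ∞ H U)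
    (hpos : ∀ q ∈ U, 0 < E q ∧ F q ^ 2 < E q * H q) {p : Plane} (hp : p ∈ U) :
    ∃ (f : OpenPartialHomeomorph Plane Plane) (ρ : Plane → ℝ), p ∈ f.source ∧ f.source ⊆ U ∧
      ContDiffOn ℝ ∞ f f.source ∧ ContDiffOn ℝ ∞ f.symm f.target ∧ ContDiffOn ℝ ∞ ρ f.source ∧
      ∀ q ∈ f.source, 0 < ρ q ∧ ∀ v w : Plane,
        E q * (v 0 * w 0) + F q * (v 0 * w 1 + v 1 * w 0) + H q * (v 1 * w 1) =
          ρ q * inner ℝ (fderiv ℝ f q v) (fderiv ℝ f q w) :=
  Pool.Agent.H97.Iso.planar_isothermal hU hE hF hH hpos hp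

end Pool.Agent.H94.Geo
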