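import Pool.Agent.H94.Geo.Good
import Pool.Agent.H24.Near.ThreeBall

set_option autoImplicit false
set_option linter.unusedSectionVars false

/-!
# The growth of eigenfunctions on a compact connected surface
-/

open Metric Set
open Pool.Agent.H24.Near (Sol Smooth)

noncomputable section

namespace Pool.Agent.H94.Geo

/-! ### Solutions -/

lemma sol_const_mul {q u : ℝ × ℝ → ℝ} {Λ : ℝ} {S : Set (ℝ × ℝ)} (h : Sol q u Λ S) (c : ℝ) :
    Sol q (fun x => c * u x) Λ S where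
  smooth_q := h.smooth_q
  smooth_u := contDiff_const.mul h.smooth_u
  eq := by
    intro p hp
    have e1 : Pool.Agent.H24.Near.d1 (fun x => c * u x) =
        fun x => c * Pool.Agent.H24.Near.d1 u x := by
      funext x
      exact Pool.Agent.H24.Near.d1_const_mul c (h.smooth_u.differentiable x)
    have e2 : Pool.Agent.H24.Near.d2 (fun x => c * u x) =
        fun x => c * Pool.Agent.H24.Near.d2 u x := by
      funext x
      exact Pool.Agent.H24.Near.d2_const_mul c (h.smooth_u.differentiable x)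
    have h1 : Pool.Agent.H24.Near.lap (fun x => c * u x) p =
        c * Pool.Agent.H24.Near.lap u p := by
      unfold Pool.Agent.H24.Near.lap
      rw [e1, e2, Pool.Agent.H24.Near.d1_const_mul c (h.smooth_u.d1.differentiable p),
        Pool.Agent.H24.Near.d2_const_mul c (h.smooth_u.d2.differentiable p)]
      ring
    rw [h1]
    linear_combination c * h.eq p hp
  bq := h.bq
  bq1 := h.bq1
  bq2 := h.bq2

lemma sol_mono {q u : ℝ × ℝ → ℝ} {Λ Λ' : ℝ} {S T : Set (ℝ × ℝ)} (h : Sol q u Λ S)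
    (hΛ : Λ ≤ Λ') (hT : T ⊆ S) : Sol q u Λ' T where
  smooth_q := h.smooth_q
  smooth_u := h.smooth_u
  eq := fun p hp => h.eq p (hT hp)
  bq := fun p hp => (h.bq p (hT hp)).trans hΛ
  bq1 := fun p hp => (h.bq1 p (hT hp)).trans hΛ
  bq2 := fun p hp => (h.bq2 p (hT hp)).trans hΛ

variable {X : Type*} [MetricSpace X] {P : ℝ → (X → ℝ) → Prop}

/-! ### Propagation of smallness in a chart -/

lemma chart_spread {x : X} (G : GoodChart P x) {k : ℝ} (hk : 0 < k) (hk1 : k ≤ 1) :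
    ∃ C : ℝ, 1 ≤ C ∧ ∀ (N lam : ℝ) (φ : X → ℝ) (S m : ℝ), 1 ≤ N → 0 < lam → lam ≤ N ^ 2 →
      P lam φ → 0 < S → (∀ x, |φ x| ≤ S) → N ≤ m → ∀ y ∈ closedBall (0 : ℝ × ℝ) 1,
      Real.exp (-m) * S ≤ |φ (G.Φ y)| → ∀ c ∈ closedBall (0 : ℝ × ℝ) 1,
      ∃ z ∈ closedBall c k, Real.exp (-(C * m)) * S ≤ |φ (G.Φ z)| := by
  obtain ⟨K, hK1, hK⟩ := Pool.Agent.H24.Near.three_ball k hk hk1
  have hW := G.one_le_W
  have hlog : 0 ≤ Real.log (16 / k) := by
    apply Real.log_nonneg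
    rw [le_div_iff₀ hk]
    linarith only [hk1]
  have hconst : 0 ≤ K * G.W * (2 * Real.log (16 / k)) :=
    mul_nonneg (mul_nonneg (by linarith) (by linarith)) (by linarith)
  refine ⟨K * G.W * (2 * Real.log (16 / k)) + 1, by linarith only [hconst], ?_⟩
  intro N lam φ S m hN hlam hle hP hS hφ hm y hy hgr c hc
  obtain ⟨q, u, hsol, hu⟩ := G.sol N hN lam hlam hle φ hP
  have hm1 : 1 ≤ m := hN.trans hm
  have hWm : 1 ≤ G.W * m := by nlinarith only [hW, hN, hm]
  have hy' := mem_closedBall.1 hy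
  have hc' := mem_closedBall.1 hc
  have hsub : closedBall c 8 ⊆ closedBall (0 : ℝ × ℝ) 9 :=
    closedBall_subset_closedBall' (by linarith)
  set v : ℝ × ℝ → ℝ := fun a => S⁻¹ * u a with hv
  have hval : ∀ a ∈ closedBall (0 : ℝ × ℝ) 9, |φ (G.Φ a)| = S * |v a| := by
    intro a ha
    rw [hv]
    simp only
    rw [abs_mul, abs_of_pos (inv_pos.2 hS), hu a ha, mul_inv_cancel_left₀ hS.ne']
  have h1 := hK (K * G.W * m) ((G.W * N) ^ 2) q v c y (by nlinarith only [hK1, hWm])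
    (by positivity) (by
      have h2 : K * (G.W * N) ≤ K * G.W * m := by
        rw [mul_assoc]
        apply mul_le_mul_of_nonneg_left _ (by linarith)
        exact mul_le_mul_of_nonneg_left hm (by linarith only [hW])
      calc K ^ 2 * (G.W * N) ^ 2 = (K * (G.W * N)) ^ 2 := by ring
        _ ≤ (K * G.W * m) ^ 2 := by
          apply pow_le_pow_left₀ _ h2
          exact mul_nonneg (by linarith) (mul_nonneg (by linarith) (by linarith)))
    (sol_mono (sol_const_mul hsol S⁻¹) le_rfl hsub)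
    (by
      intro p hp
      have h2 := hval p (hsub hp)
      have h3 := hφ (G.Φ p)
      rw [h2] at h3
      by_contra hcon
      have : 1 < |v p| := not_le.1 hcon
      nlinarith only [hS, h3, hcon])
    (by
      rw [mem_closedBall]
      have := dist_triangle_right y c (0 : ℝ × ℝ)
      linarith)
    (by
      have h2 := hval y (closedBall_subset_closedBall (by norm_num) hy)
      rw [h2] at hgr
      have h3 : Real.exp (-m) ≤ |v y| := by
        by_contra hcon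
        have : |v y| < Real.exp (-m) := not_le.1 hcon
        nlinarith only [hS, hgr, hcon]
      refine le_trans (Real.exp_le_exp.2 ?_) h3
      have : 1 * m ≤ K * G.W * m :=
        mul_le_mul_of_nonneg_right (by nlinarith only [hK1, hW]) (by linarith)
      linarith)
  obtain ⟨z, hz, hzM⟩ := Pool.Agent.H24.Near.exists_M
    ((sol_const_mul hsol S⁻¹).smooth_u.continuous) (z := c) hk.le
  refine ⟨z, hz, ?_⟩
  have hz9 : z ∈ closedBall (0 : ℝ × ℝ) 9 := by
    rw [mem_closedBall] at hz ⊢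
    have := dist_triangle z c (0 : ℝ × ℝ)
    linarith
  rw [hval z hz9, mul_comm]
  apply mul_le_mul_of_nonneg_left _ hS.le
  refine le_trans ?_ (h1.trans hzM.ge)
  rw [Real.exp_le_exp]
  nlinarith only [hN, hm]

/-- Transfer of lower bounds from the set `U` to the set `V`. -/
def Tr (P : ℝ → (X → ℝ) → Prop) (U V : Set X) : Prop :=
  ∃ C : ℝ, 1 ≤ C ∧ ∀ (N lam : ℝ) (φ : X → ℝ) (S m : ℝ), 1 ≤ N → 0 < lam → lam ≤ N ^ 2 →
    P lam φ → 0 < S → (∀ x, |φ x| ≤ S) → N ≤ m → (∃ z ∈ U, Real.exp (-m) * S ≤ |φ z|) →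
    ∃ z ∈ V, Real.exp (-(C * m)) * S ≤ |φ z|

lemma Tr.trans {U V W : Set X} (h1 : Tr P U V) (h2 : Tr P V W) : Tr P U W := by
  obtain ⟨C1, hC1, h1⟩ := h1
  obtain ⟨C2, hC2, h2⟩ := h2
  refine ⟨C2 * C1, by nlinarith, ?_⟩
  intro N lam φ S m hN hlam hle hP hS hφ hm h
  have := h2 N lam φ S (C1 * m) hN hlam hle hP hS hφ (by nlinarith only [hC1, hN, hm])
    (h1 N lam φ S m hN hlam hle hP hS hφ hm h)
  rwa [← mul_assoc] at this

lemma Tr.mono {U V U' V' : Set X} (h : Tr P U V) (hU : U' ⊆ U) (hV : V ⊆ V') : Tr P U' V' := by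
  obtain ⟨C, hC, h⟩ := h
  refine ⟨C, hC, ?_⟩
  intro N lam φ S m hN hlam hle hP hS hφ hm ⟨z, hz, hz'⟩
  obtain ⟨w, hw, hw'⟩ := h N lam φ S m hN hlam hle hP hS hφ hm ⟨z, hU hz, hz'⟩
  exact ⟨w, hV hw, hw'⟩

/-- The standard neighbourhood of the centre of a chart. -/
def nb {x : X} (G : GoodChart P x) : Set X := ball x (1 / G.κ)

lemma isOpen_nb {x : X} (G : GoodChart P x) : IsOpen (nb G) := isOpen_ball

lemma mem_nb {x : X} (G : GoodChart P x) : x ∈ nb G :=
  mem_ball_self (one_div_pos.2 (zero_lt_one.trans_le G.one_le_κ))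

lemma nb_sub {x : X} (G : GoodChart P x) {z : X} (hz : z ∈ nb G) :
    ∃ y ∈ closedBall (0 : ℝ × ℝ) 1, G.Φ y = z := by
  have := G.surj 0 (mem_closedBall_self zero_le_one) 1 zero_lt_one le_rfl
  rw [G.center] at this
  exact this hz

lemma tr_chart {x : X} (G : GoodChart P x) {c : ℝ × ℝ} (hc : c ∈ closedBall (0 : ℝ × ℝ) 1)
    {ρ : ℝ} (hρ : 0 < ρ) : Tr P (nb G) (ball (G.Φ c) ρ) := by
  have hκ := G.one_le_κ
  have hκ0 : 0 < G.κ := by linarith
  obtain ⟨C, hC, h⟩ := chart_spread G (k := min 1 (ρ / (2 * G.κ)))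
    (lt_min one_pos (by positivity)) (min_le_left _ _)
  refine ⟨C, hC, ?_⟩
  intro N lam φ S m hN hlam hle hP hS hφ hm ⟨z, hz, hz'⟩
  obtain ⟨y, hy, rfl⟩ := nb_sub G hz
  obtain ⟨w, hw, hw'⟩ := h N lam φ S m hN hlam hle hP hS hφ hm y hy hz' c hc
  refine ⟨G.Φ w, ?_, hw'⟩
  rw [mem_closedBall] at hw hc
  have h1 := min_le_left 1 (ρ / (2 * G.κ))
  have h2 := min_le_right 1 (ρ / (2 * G.κ))
  have h3 : dist w 0 ≤ 9 := by
    have := dist_triangle w c (0 : ℝ × ℝ)
    linarith only [hc, hw, h1, this]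
  have h4 := G.lip w (mem_closedBall.2 h3) c (mem_closedBall.2 (by linarith))
  rw [mem_ball]
  calc dist (G.Φ w) (G.Φ c) ≤ G.κ * dist w c := h4
    _ ≤ G.κ * (ρ / (2 * G.κ)) := mul_le_mul_of_nonneg_left (hw.trans h2) hκ0.le
    _ = ρ / 2 := by field_simp
    _ < ρ := by linarith only [hρ]

lemma tr_inter {x x' : X} (G : GoodChart P x) (G' : GoodChart P x')
    (h : (nb G ∩ nb G').Nonempty) : Tr P (nb G) (nb G') := by
  obtain ⟨v, hv, hv'⟩ := h
  obtain ⟨c, hc, rfl⟩ := nb_sub G hv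
  obtain ⟨ρ, hρ, hsub⟩ := Metric.isOpen_iff.1 (isOpen_nb G') _ hv'
  exact (tr_chart G hc hρ).mono subset_rfl hsub

lemma tr_all [PreconnectedSpace X] (G : ∀ x, GoodChart P x) (x x' : X) :
    Tr P (nb (G x)) (nb (G x')) := by
  set T : Set X := {x' | Tr P (nb (G x)) (nb (G x'))} with hT
  have hself : x ∈ T := by
    rw [hT, Set.mem_ofPred_eq]
    exact tr_inter (G x) (G x) ⟨x, mem_nb _, mem_nb _⟩
  have hopen : IsOpen T := by
    rw [isOpen_iff_mem_nhds]
    intro y hy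
    filter_upwards [(isOpen_nb (G y)).mem_nhds (mem_nb _)] with z hz
    exact Tr.trans hy (tr_inter _ _ ⟨z, hz, mem_nb _⟩)
  have hclosed : IsClosed T := by
    rw [← isOpen_compl_iff, isOpen_iff_mem_nhds]
    intro y hy
    filter_upwards [(isOpen_nb (G y)).mem_nhds (mem_nb _)] with z hz hz'
    exact hy (Tr.trans hz' (tr_inter _ _ ⟨z, mem_nb _, hz⟩))
  have : T = univ := IsClopen.eq_univ ⟨hclosed, hopen⟩ ⟨x, hself⟩
  have h := mem_univ x'
  rw [← this] at h
  exact h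

/-- The growth bound of Donnelly and Fefferman. -/
theorem growth [CompactSpace X] [PreconnectedSpace X] (G : ∀ x, GoodChart P x) {ρ : ℝ}
    (hρ : 0 < ρ) : ∃ C : ℝ, 1 ≤ C ∧ ∀ (N lam : ℝ) (φ : X → ℝ) (S : ℝ), 1 ≤ N → 0 < lam →
      lam ≤ N ^ 2 → P lam φ → 0 < S → (∀ x, |φ x| ≤ S) → (∃ x, |φ x| = S) → ∀ x : X,
      ∃ z ∈ ball x ρ, Real.exp (-(C * N)) * S ≤ |φ z| := by
  -- the finite set of charts for the maximum point
  obtain ⟨t, ht⟩ := CompactSpace.elim_nhds_subcover (fun x => nb (G x))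
    (fun x => (isOpen_nb (G x)).mem_nhds (mem_nb _))
  have hpt : ∀ x : X, ∃ C : ℝ, 1 ≤ C ∧ ∀ (N lam : ℝ) (φ : X → ℝ) (S : ℝ), 1 ≤ N → 0 < lam →
      lam ≤ N ^ 2 → P lam φ → 0 < S → (∀ x, |φ x| ≤ S) → (∃ x, |φ x| = S) →
      ∃ z ∈ ball x (ρ / 2), Real.exp (-(C * N)) * S ≤ |φ z| := by
    intro x
    have h1 : ∀ y : X, Tr P (nb (G y)) (ball x (ρ / 2)) := by
      intro y
      have h2 := tr_chart (G x) (c := 0) (mem_closedBall_self zero_le_one) (half_pos hρ)
      rw [(G x).center] at h2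
      exact (tr_all G y x).trans h2
    choose C hC h using h1
    refine ⟨1 + ∑ y ∈ t, C y, by
      have : 0 ≤ ∑ y ∈ t, C y := Finset.sum_nonneg fun y _ => zero_le_one.trans (hC y)
      linarith, ?_⟩
    intro N lam φ S hN hlam hle hP hS hφ ⟨xm, hxm⟩
    have h3 : xm ∈ ⋃ y ∈ t, nb (G y) := by
      rw [ht]
      trivial
    rw [mem_iUnion₂] at h3
    obtain ⟨y, hy, hxy⟩ := h3
    obtain ⟨z, hz, hz'⟩ := h y N lam φ S N hN hlam hle hP hS hφ le_rfl ⟨xm, hxy, by
      rw [hxm]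
      have : Real.exp (-N) ≤ 1 := Real.exp_le_one_iff.2 (by linarith)
      nlinarith only [hS, this]⟩
    refine ⟨z, hz, le_trans ?_ hz'⟩
    apply mul_le_mul_of_nonneg_right _ hS.le
    rw [Real.exp_le_exp]
    have h4 : C y ≤ ∑ y ∈ t, C y :=
      Finset.single_le_sum (f := C) (fun y _ => zero_le_one.trans (hC y)) hy
    nlinarith only [hN, h4]
  choose C hC h using hpt
  obtain ⟨s, hs⟩ := CompactSpace.elim_nhds_subcover (fun x : X => ball x (ρ / 2))
    (fun x => ball_mem_nhds x (half_pos hρ))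
  refine ⟨1 + ∑ y ∈ s, C y, by
    have : 0 ≤ ∑ y ∈ s, C y := Finset.sum_nonneg fun y _ => zero_le_one.trans (hC y)
    linarith, ?_⟩
  intro N lam φ S hN hlam hle hP hS hφ hmax x
  have h3 : x ∈ ⋃ y ∈ s, ball y (ρ / 2) := by
    rw [hs]
    trivial
  rw [mem_iUnion₂] at h3
  obtain ⟨y, hy, hxy⟩ := h3
  obtain ⟨z, hz, hz'⟩ := h y N lam φ S hN hlam hle hP hS hφ hmax
  refine ⟨z, ?_, le_trans ?_ hz'⟩
  · rw [mem_ball] at hz hxy ⊢
    have := dist_triangle_right z x y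
    linarith
  · apply mul_le_mul_of_nonneg_right _ hS.le
    rw [Real.exp_le_exp]
    have h4 : C y ≤ ∑ y ∈ s, C y :=
      Finset.single_le_sum (f := C) (fun y _ => zero_le_one.trans (hC y)) hy
    nlinarith

end Pool.Agent.H94.Geo
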